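import Mathlib

/-!
# Coprimality of polynomials from coprimality of the values at `1`
-/

set_option autoImplicit false

namespace Pool.Agent.K6.H50.SGF

open Polynomial

theorem prod_roots_bound (s : Multiset ℂ) (h : ∀ θ ∈ s, ‖θ‖ < 1 / 4) :
    3 ^ (Multiset.card s) * ‖(s.map (fun θ => 0 - θ)).prod‖ ≤ ‖(s.map (fun θ => 1 - θ)).prod‖ := by
  induction s using Multiset.induction_on with
  | empty => simp
  | cons a s ih =>
    have h1 := ih fun θ hθ => h θ (Multiset.mem_cons_of_mem hθ)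
    have h2 := h a (Multiset.mem_cons_self a s)
    have h3 : 3 * ‖a‖ ≤ ‖1 - a‖ := by
      have h4 : ‖(1 : ℂ)‖ ≤ ‖1 - a‖ + ‖a‖ := by
        calc ‖(1 : ℂ)‖ = ‖(1 - a) + a‖ := by ring_nf
          _ ≤ _ := norm_add_le _ _
      rw [norm_one] at h4
      linarith
    rw [Multiset.card_cons, Multiset.map_cons, Multiset.prod_cons, Multiset.map_cons,
      Multiset.prod_cons, norm_mul, norm_mul, zero_sub, norm_neg, pow_succ]
    calc 3 ^ Multiset.card s * 3 * (‖a‖ * ‖(s.map (fun θ => 0 - θ)).prod‖)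
        = (3 * ‖a‖) * (3 ^ Multiset.card s * ‖(s.map (fun θ => 0 - θ)).prod‖) := by ring
      _ ≤ ‖1 - a‖ * ‖(s.map (fun θ => 1 - θ)).prod‖ :=
          mul_le_mul h3 h1 (by positivity) (norm_nonneg _)

/-- An integer polynomial with small roots has a large value at `1`. -/
theorem eval_one_large (G : ℤ[X]) (h0 : G.coeff 0 ≠ 0) (hd : 0 < G.natDegree)
    (h : ∀ θ : ℂ, (G.map (Int.castRingHom ℂ)).eval θ = 0 → ‖θ‖ < 1 / 4) :
    ¬ IsUnit (G.eval 1) := by
  intro hu
  set P := G.map (Int.castRingHom ℂ) with hP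
  have hinj : Function.Injective (Int.castRingHom ℂ) := Int.cast_injective
  have hG0 : G ≠ 0 := by
    rintro rfl
    simp at h0
  have hP0 : P ≠ 0 := (Polynomial.map_ne_zero_iff hinj).2 hG0
  have hdeg : P.natDegree = G.natDegree := natDegree_map_eq_of_injective hinj G
  have hsp : P.Splits := IsAlgClosed.splits P
  have hcard : Multiset.card P.roots = P.natDegree := hsp.natDegree_eq_card_roots.symm
  have e1 := hsp.eval_eq_prod_roots 1
  have e0 := hsp.eval_eq_prod_roots 0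
  have hb := prod_roots_bound P.roots fun θ hθ => h θ ((mem_roots hP0).1 hθ)
  have v1 : P.eval 1 = ((G.eval 1 : ℤ) : ℂ) := by
    rw [hP, eval_map, ← Int.cast_one, eval₂_at_intCast]
    simp
  have v0 : P.eval 0 = ((G.coeff 0 : ℤ) : ℂ) := by
    rw [hP, ← coeff_zero_eq_eval_zero, coeff_map]
    simp
  have n1 : ‖P.eval 1‖ = 1 := by
    rw [v1]
    rcases Int.isUnit_iff.1 hu with h5 | h5 <;> rw [h5] <;> simp
  have n0 : 1 ≤ ‖P.eval 0‖ := by
    rw [v0, Complex.norm_intCast]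
    exact_mod_cast Int.one_le_abs h0
  have h3 : (3 : ℝ) ^ Multiset.card P.roots * ‖P.eval 0‖ ≤ ‖P.eval 1‖ := by
    rw [e1, e0, norm_mul, norm_mul]
    calc (3 : ℝ) ^ Multiset.card P.roots *
          (‖P.leadingCoeff‖ * ‖(P.roots.map (fun θ => 0 - θ)).prod‖)
        = ‖P.leadingCoeff‖ * (3 ^ Multiset.card P.roots *
            ‖(P.roots.map (fun θ => 0 - θ)).prod‖) := by ring
      _ ≤ _ := mul_le_mul_of_nonneg_left hb (norm_nonneg _)
  have h4 : (3 : ℝ) ≤ 3 ^ Multiset.card P.roots := by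
    have := pow_le_pow_right₀ (by norm_num : (1 : ℝ) ≤ 3) (by omega : 1 ≤ Multiset.card P.roots)
    rwa [pow_one] at this
  nlinarith

theorem coprime_of_roots (A B : ℤ[X]) (hA0 : A.coeff 0 ≠ 0)
    (hroot : ∀ θ : ℂ, (A.map (Int.castRingHom ℂ)).eval θ = 0 → ‖θ‖ < 1 / 4)
    (hcop : IsCoprime (A.eval 1) (B.eval 1)) :
    IsCoprime (A.map (algebraMap ℤ ℚ)) (B.map (algebraMap ℤ ℚ)) := by
  have hA : A ≠ 0 := by
    rintro rfl
    simp at hA0
  have hinj : Function.Injective (algebraMap ℤ ℚ) := (algebraMap ℤ ℚ).injective_int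
  have hAq : A.map (algebraMap ℤ ℚ) ≠ 0 := (Polynomial.map_ne_zero_iff hinj).2 hA
  refine isCoprime_of_irreducible_dvd (fun h => hAq h.1) fun f hf hfA hfB => ?_
  obtain ⟨b, hb, hmap⟩ := IsLocalization.integerNormalization_spec (nonZeroDivisors ℤ) f
  set h := IsLocalization.integerNormalization (nonZeroDivisors ℤ) f with hh
  have hb0 : b ≠ 0 := nonZeroDivisors.ne_zero hb
  have hbq : (b : ℚ) ≠ 0 := by exact_mod_cast hb0
  have hmap' : h.map (algebraMap ℤ ℚ) = C (b : ℚ) * f := by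
    rw [hmap, zsmul_eq_mul]
    congr 1
  have hh0 : h ≠ 0 := by
    intro h1
    rw [h1, Polynomial.map_zero] at hmap'
    rcases mul_eq_zero.1 hmap'.symm with h2 | h2
    · exact hbq (C_eq_zero.1 h2)
    · exact hf.ne_zero h2
  set G := h.primPart with hG
  have hprim : G.IsPrimitive := isPrimitive_primPart h
  have hGf : G.map (algebraMap ℤ ℚ) ∣ C (b : ℚ) * f := by
    rw [← hmap']
    conv_rhs => rw [eq_C_content_mul_primPart h, Polynomial.map_mul]
    exact Dvd.intro_left _ rfl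
  have hunit : IsUnit (C (b : ℚ)) := isUnit_C.2 (isUnit_iff_ne_zero.2 hbq)
  have hGf' : G.map (algebraMap ℤ ℚ) ∣ f := (hunit.dvd_mul_left).1 hGf
  have hGA : G ∣ A := hprim.dvd_of_fraction_map_dvd_fraction_map (hGf'.trans hfA)
  have hGB : G ∣ B := hprim.dvd_of_fraction_map_dvd_fraction_map (hGf'.trans hfB)
  have hdeg : 0 < G.natDegree := by
    rw [hG, natDegree_primPart]
    have h1 : (h.map (algebraMap ℤ ℚ)).natDegree = h.natDegree :=
      natDegree_map_eq_of_injective hinj h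
    rw [← h1, hmap', natDegree_C_mul hbq]
    exact hf.natDegree_pos
  have hG0 : G.coeff 0 ≠ 0 := by
    obtain ⟨T, hT⟩ := hGA
    intro h1
    apply hA0
    rw [hT, mul_coeff_zero, h1, zero_mul]
  refine eval_one_large G hG0 hdeg ?_ ?_
  · intro θ hθ
    apply hroot
    obtain ⟨T, hT⟩ := hGA
    rw [hT, Polynomial.map_mul, eval_mul, hθ, zero_mul]
  · refine hcop.isUnit_of_dvd' ?_ ?_
    · obtain ⟨T, hT⟩ := hGA
      exact ⟨T.eval 1, by rw [hT, eval_mul]⟩
    · obtain ⟨T, hT⟩ := hGB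
      exact ⟨T.eval 1, by rw [hT, eval_mul]⟩

end Pool.Agent.K6.H50.SGF
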