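import Mathlib

/-!
# Solutions of generalised Fermat equations whose bases are close to `±1` in base `g`: definitions
-/

set_option autoImplicit false

namespace Pool.Agent.K6.H50.SGF

/-- `x` is the sum of `x₀` and of at most `s` terms `u i * g ^ i` with `N ≤ i ≤ L N`, the numbers
`|u i|` having a sum of at most `V`. -/
def Near (g N L s : ℕ) (V : ℝ) (x₀ x : ℤ) : Prop :=
  ∃ (I : Finset ℕ) (u : ℕ → ℤ), I.card ≤ s ∧ (∀ i ∈ I, N ≤ i ∧ i ≤ L * N) ∧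
    ((∑ i ∈ I, |u i| : ℤ) : ℝ) ≤ V ∧ x = x₀ + ∑ i ∈ I, u i * (g : ℤ) ^ i

/-- A solution of the equation `a x ^ p + b y ^ q = c z ^ r` as in the problem, with arbitrary
coefficients `a, b, c ≠ 0` (it is an `S`-solution if the prime divisors of `a b c` belong to `S`). -/
structure Sol (a b c x y z : ℤ) (p q r : ℕ) : Prop where
  eqn : a * x ^ p + b * y ^ q = c * z ^ r
  pos : 0 < p ∧ 0 < q ∧ 0 < r
  hyp : (1 : ℚ) / p + 1 / q + 1 / r < 1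
  gcd : Int.gcd (Int.gcd (a * x) (b * y)) (c * z) = 1
  nz : a * b * c ≠ 0
  nz' : x ≠ 0 ∧ y ≠ 0 ∧ z ≠ 0

/-- `a` is a power of `ℓ` times an integer of absolute value at most `V`. -/
def Coef (ℓ : ℕ) (V : ℝ) (a : ℤ) : Prop :=
  ∃ (i : ℕ) (α : ℤ), a = (ℓ : ℤ) ^ i * α ∧ |(α : ℝ)| ≤ V

/-- `x` is a power of `ℓ` times a number `x'` with `Near ℓ N L s V 1 x'` or
`Near ℓ N L s V (-1) x'`. -/
def NearPower (ℓ N L s : ℕ) (V : ℝ) (x : ℤ) : Prop :=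
  ∃ (t : ℕ) (ε x' : ℤ), (ε = 1 ∨ ε = -1) ∧ Near ℓ N L s V ε x' ∧ x = (ℓ : ℤ) ^ t * x'

/-- `x` is a power of `ℓ` or minus a power of `ℓ`. -/
def IsPower (ℓ : ℕ) (x : ℤ) : Prop :=
  ∃ t : ℕ, x = (ℓ : ℤ) ^ t ∨ x = -(ℓ : ℤ) ^ t

end Pool.Agent.K6.H50.SGF
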