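import Mathlib

/-!
# From truncated identities to exact identities

Let `F`, `G`, `H` be polynomials with `R F' = L F` and so on, where `R` and the `L` have small
degree (for example products of powers of polynomials of small degree, with large exponents). If
`F + G + H` vanishes at `0` to a high order, then it vanishes.
-/

set_option autoImplicit false

namespace Pool.Agent.K6.H50.SGF

open Polynomial

theorem exists_X_pow (E : ℚ[X]) (hE : E ≠ 0) :
    ∃ (e : ℕ) (E1 : ℚ[X]), E = X ^ e * E1 ∧ E1.coeff 0 ≠ 0 := by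
  obtain ⟨q, hq, hnd⟩ := exists_eq_pow_rootMultiplicity_mul_and_not_dvd E hE 0
  refine ⟨rootMultiplicity 0 E, q, ?_, ?_⟩
  · rw [map_zero, sub_zero] at hq
    exact hq
  · intro h
    apply hnd
    rw [map_zero, sub_zero, X_dvd_iff]
    exact h

theorem X_mul_derivative (e : ℕ) (E : ℚ[X]) :
    X * derivative (X ^ e * E) = X ^ e * (C (e : ℚ) * E + X * derivative E) := by
  rw [derivative_mul, derivative_X_pow]
  rcases e with _ | e
  · simp
  · rw [Nat.add_sub_cancel]
    ring

theorem ord_lemma {P E : ℚ[X]} {m : ℕ} (hE : X ^ m ∣ E) (hP : ¬ X ^ m ∣ P)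
    (h : P * derivative E = E * derivative P) : E = 0 := by
  by_contra hE0
  have hP0 : P ≠ 0 := by
    rintro rfl
    exact hP (dvd_zero _)
  obtain ⟨e, E1, rfl, he⟩ := exists_X_pow E hE0
  obtain ⟨o, P1, rfl, ho⟩ := exists_X_pow P hP0
  have hoe : o < m := by
    by_contra hcon
    exact hP (Dvd.dvd.mul_right (pow_dvd_pow X (not_lt.1 hcon)) P1)
  have hme : m ≤ e := by
    by_contra hcon
    rw [not_le] at hcon
    rw [X_pow_dvd_iff] at hE
    have h1 := hE e hcon
    rw [coeff_X_pow_mul'] at h1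
    simp only [le_refl, if_true, Nat.sub_self] at h1
    exact he h1
  have h1 : X ^ (o + e) * (C ((e : ℚ) - o) * (P1 * E1) +
      X * (P1 * derivative E1 - E1 * derivative P1)) = 0 := by
    have h2 : X ^ o * P1 * (X * derivative (X ^ e * E1)) =
        X ^ e * E1 * (X * derivative (X ^ o * P1)) := by
      linear_combination X * h
    rw [X_mul_derivative, X_mul_derivative] at h2
    rw [C_sub]
    linear_combination h2
  have h2 : C ((e : ℚ) - o) * (P1 * E1) + X * (P1 * derivative E1 - E1 * derivative P1) = 0 := by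
    rcases mul_eq_zero.1 h1 with h3 | h3
    · exact absurd h3 (pow_ne_zero _ X_ne_zero)
    · exact h3
  have h3 := congrArg (fun t => coeff t 0) h2
  simp only [coeff_add, mul_coeff_zero, coeff_X_zero, zero_mul, add_zero, coeff_zero] at h3
  have h4 : (e : ℚ) - o ≠ 0 := by
    have : (o : ℚ) < e := by exact_mod_cast (by omega : o < e)
    linarith
  rcases mul_eq_zero.1 h3 with h5 | h5
  · rw [coeff_C_zero] at h5
    exact h4 h5
  · rcases mul_eq_zero.1 h5 with h6 | h6
    · exact ho h6
    · exact he h6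

/-- `X ^ m ∣ E` implies `X ^ m ∣ R E'` if `X ∣ R`. -/
theorem dvd_mul_derivative {R E : ℚ[X]} {m : ℕ} (hR : X ∣ R) (hE : X ^ m ∣ E) :
    X ^ m ∣ R * derivative E := by
  obtain ⟨R1, rfl⟩ := hR
  obtain ⟨T, rfl⟩ := hE
  have h := X_mul_derivative m T
  refine ⟨R1 * (C (m : ℚ) * T + X * derivative T), ?_⟩
  linear_combination R1 * h

theorem dvd_of_dvd_mul {F P : ℚ[X]} {m : ℕ} (hF : F.coeff 0 ≠ 0) (h : X ^ m ∣ F * P) :
    X ^ m ∣ P := by
  have hc : IsCoprime (X : ℚ[X]) F := by
    refine (irreducible_X.coprime_iff_not_dvd).2 ?_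
    rw [X_dvd_iff]
    exact hF
  exact (hc.pow_left).dvd_of_dvd_mul_left h

theorem eq_zero_of_dvd {P : ℚ[X]} {m : ℕ} (h : X ^ m ∣ P) (hd : P.natDegree < m) : P = 0 := by
  by_contra hP
  have h1 := natDegree_le_of_dvd h hP
  rw [natDegree_X_pow] at h1
  omega

theorem natDegree_mul_derivative {A B : ℚ[X]} {a b : ℕ} (hA : A.natDegree ≤ a + 1)
    (hB : B.natDegree ≤ b) : (A * derivative B).natDegree ≤ a + b := by
  rcases Nat.eq_zero_or_pos B.natDegree with h0 | h0
  · have h1 : derivative B = 0 := by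
      rw [eq_C_of_natDegree_eq_zero h0, derivative_C]
    rw [h1, mul_zero, natDegree_zero]
    exact Nat.zero_le _
  · have h1 := natDegree_derivative_le B
    have h2 := natDegree_mul_le (p := A) (q := derivative B)
    omega

/-- Two terms. -/
theorem exact2 {F G R LF LG : ℚ[X]} {m : ℕ} (hR : X ∣ R) (hR0 : R ≠ 0)
    (hF : R * derivative F = LF * F) (hG : R * derivative G = LG * G)
    (hF0 : F.coeff 0 ≠ 0) (hG0 : G.coeff 0 ≠ 0) (hLF : LF.natDegree < m)
    (hLG : LG.natDegree < m) (h : X ^ m ∣ F + G) : F + G = 0 := by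
  have h1 : X ^ m ∣ G * (LG - LF) := by
    have h2 := dvd_mul_derivative hR h
    have h3 := h2.sub (Dvd.dvd.mul_left h LF)
    convert h3 using 1
    rw [derivative_add]
    linear_combination -hF - hG
  have h2 : LG - LF = 0 := by
    refine eq_zero_of_dvd (dvd_of_dvd_mul hG0 h1) ?_
    have := natDegree_sub_le LG LF
    omega
  refine ord_lemma (P := F) h ?_ ?_
  · intro h3
    have hm : 0 < m := by omega
    rw [X_pow_dvd_iff] at h3
    exact hF0 (h3 0 hm)
  · apply mul_left_cancel₀ hR0
    rw [derivative_add]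
    have h3 : LG = LF := by linear_combination h2
    rw [h3] at hG
    linear_combination F * hG - G * hF

/-- Three terms. -/
theorem exact3 {F G H R LF LG LH : ℚ[X]} {m δ : ℕ} (hR : X ∣ R) (hR0 : R ≠ 0)
    (hF : R * derivative F = LF * F) (hG : R * derivative G = LG * G)
    (hH : R * derivative H = LH * H) (hF0 : F.coeff 0 ≠ 0) (hG0 : G.coeff 0 ≠ 0)
    (hHm : ¬ X ^ m ∣ H) (hLF : LF.natDegree ≤ δ) (hLG : LG.natDegree ≤ δ)
    (hLH : LH.natDegree ≤ δ) (hRd : R.natDegree ≤ δ + 1) (hδ : 3 * δ < m)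
    (h : X ^ m ∣ F + G + H) : F + G + H = 0 := by
  set Φ := LF - LH with hΦ
  set Γ := LG - LH with hΓ
  have hΦd : Φ.natDegree ≤ δ := by
    have := natDegree_sub_le LF LH
    rw [← hΦ] at this
    omega
  have hΓd : Γ.natDegree ≤ δ := by
    have := natDegree_sub_le LG LH
    rw [← hΓ] at this
    omega
  have h1 : X ^ m ∣ F * Φ + G * Γ := by
    have h2 := dvd_mul_derivative hR h
    have h3 := h2.sub (Dvd.dvd.mul_left h LH)
    convert h3 using 1
    rw [derivative_add, derivative_add, hΦ, hΓ]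
    linear_combination -hF - hG - hH
  have d1 : R * derivative (F * Φ) = F * (LF * Φ + R * derivative Φ) := by
    rw [derivative_mul]
    linear_combination Φ * hF
  have d2 : R * derivative (G * Γ) = G * (LG * Γ + R * derivative Γ) := by
    rw [derivative_mul]
    linear_combination Γ * hG
  have h2 : X ^ m ∣ F * (Γ * (LF * Φ + R * derivative Φ) - Φ * (LG * Γ + R * derivative Γ)) := by
    have h3 := dvd_mul_derivative hR h1
    have h4 := (Dvd.dvd.mul_left h3 Γ).sub (Dvd.dvd.mul_left h1 (LG * Γ + R * derivative Γ))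
    convert h4 using 1
    rw [derivative_add]
    linear_combination -Γ * d1 - Γ * d2
  have h3 : Γ * (LF * Φ + R * derivative Φ) - Φ * (LG * Γ + R * derivative Γ) = 0 := by
    refine eq_zero_of_dvd (dvd_of_dvd_mul hF0 h2) ?_
    have a1 : (LF * Φ + R * derivative Φ).natDegree ≤ 2 * δ := by
      refine (natDegree_add_le _ _).trans (max_le ?_ ?_)
      · exact natDegree_mul_le.trans (by omega)
      · exact (natDegree_mul_derivative hRd hΦd).trans (by omega)
    have a2 : (LG * Γ + R * derivative Γ).natDegree ≤ 2 * δ := by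
      refine (natDegree_add_le _ _).trans (max_le ?_ ?_)
      · exact natDegree_mul_le.trans (by omega)
      · exact (natDegree_mul_derivative hRd hΓd).trans (by omega)
    refine lt_of_le_of_lt (natDegree_sub_le _ _) (max_lt ?_ ?_)
    · exact lt_of_le_of_lt natDegree_mul_le (by omega)
    · exact lt_of_le_of_lt natDegree_mul_le (by omega)
  have hE1 : F * Φ + G * Γ = 0 := by
    by_cases hΦ0 : Φ = 0
    · rw [hΦ0, mul_zero, zero_add] at h1 ⊢
      rw [eq_zero_of_dvd (dvd_of_dvd_mul hG0 h1) (by omega), mul_zero]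
    · refine ord_lemma (P := F * Φ) h1 ?_ ?_
      · intro h4
        exact hΦ0 (eq_zero_of_dvd (dvd_of_dvd_mul hF0 h4) (by omega))
      · apply mul_left_cancel₀ hR0
        rw [derivative_add]
        linear_combination F * Φ * d2 - G * Γ * d1 - F * G * h3
  refine ord_lemma (P := H) h hHm ?_
  apply mul_left_cancel₀ hR0
  rw [derivative_add, derivative_add]
  rw [hΦ, hΓ] at hE1
  linear_combination H * hF + H * hG - (F + G) * hH + H * hE1

end Pool.Agent.K6.H50.SGF
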