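import Pool.Agent.Y913.Vm.Ht

/-!
# Heights of coprime triples `u + v = w` composed of few small integers, with a large power of a
small prime
-/

set_option autoImplicit false

namespace Pool.Agent.K6.H50.SGF

open Pool.Agent.Y913.Nb

/-- The sum of two of the three numbers is the third. -/
def Sum3 (u v w : ℕ) : Prop := u + v = w ∨ v + w = u ∨ w + u = v

theorem pow_bound {a b : ℝ} {i j : ℕ} (h1 : 1 ≤ a) (hab : a ≤ b) (hij : i ≤ j) :
    a ^ i ≤ b ^ j :=
  (pow_le_pow_left₀ (by linarith) hab i).trans (pow_le_pow_right₀ (by linarith) hij)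

/-- The basic bound; `τ` is the number divisible by the power of the prime. -/
theorem height_aux (n : ℕ) : ∃ C : ℝ, ∃ κ : ℕ, 0 < C ∧
    ∀ Y : ℝ, 1 ≤ Y → ∀ u v τ : ℕ, 0 < u → 0 < v → 0 < τ → Nat.Coprime u v →
      NB n Y u → NB n Y v → NB n Y τ → (u + v = τ ∨ u + τ = v) →
      ∀ π k : ℕ, π.Prime → π ^ k ∣ τ → Real.log τ ≤ 2 * (k * Real.log Y) →
      Real.log (max u (max v τ) : ℕ) ≤ C * (π + (1 + Real.log Y)) ^ κ := by
  obtain ⟨C1, κ1, hC1, h1⟩ := padic_height4 n (1 / 4) (by norm_num)
  obtain ⟨C2, κ2, hC2, h2⟩ := arch_height2 n (1 / 2) (by norm_num)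
  refine ⟨C1 + C2 + 1, κ1 + κ2, by positivity, ?_⟩
  intro Y hY u v τ hu hv hτ hcop nu nv nτ hsum π k hπ hdvd hlog
  have hlY : 0 ≤ Real.log Y := Real.log_nonneg hY
  have hπ1 : (1 : ℝ) ≤ π := by exact_mod_cast hπ.one_lt.le
  obtain ⟨Q, hQ⟩ : ∃ Q : ℝ, Q = π + (1 + Real.log Y) := ⟨_, rfl⟩
  have hQ1 : 1 ≤ Q := by rw [hQ]; linarith
  have b1 : C1 * Q ^ κ1 ≤ C1 * Q ^ (κ1 + κ2) :=
    mul_le_mul_of_nonneg_left (pow_bound hQ1 le_rfl (by omega)) hC1.le
  have b2 : C2 * (1 + Real.log Y) ^ κ2 ≤ C2 * Q ^ (κ1 + κ2) :=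
    mul_le_mul_of_nonneg_left (pow_bound (by linarith) (by rw [hQ]; linarith) (by omega)) hC2.le
  have b3 : (1 : ℝ) ≤ Q ^ (κ1 + κ2) := one_le_pow₀ hQ1
  have b4 : 0 < Q ^ (κ1 + κ2) := by positivity
  have hl2 : Real.log 2 ≤ 1 := by
    have := Real.log_two_lt_d9
    linarith
  rw [← hQ]
  rcases hsum with hs | hs
  · -- `τ` is the largest number
    have hmax : max u (max v τ) = τ := by omega
    rw [hmax]
    rcases Nat.lt_trichotomy u v with huv | huv | huv
    · have h3 := h1 Y hY π k hπ (-1) (Or.inr rfl) (u, v) hu huv hcop nu nv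
        (by
          have h4 : ((π ^ k : ℕ) : ℤ) ∣ ((τ : ℕ) : ℤ) := Int.natCast_dvd_natCast.2 hdvd
          rw [← hs] at h4
          push_cast at h4 ⊢
          convert h4 using 1
          ring)
        (by
          simp only
          have h4 : Real.log v ≤ Real.log τ :=
            Real.log_le_log (by exact_mod_cast hv) (by exact_mod_cast (by omega : v ≤ τ))
          have h5 : (k : ℝ) * Real.log Y ≤ k * (π + (1 + Real.log Y)) :=
            mul_le_mul_of_nonneg_left (by linarith) (Nat.cast_nonneg k)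
          have h6 : 0 ≤ Real.log v := Real.log_natCast_nonneg v
          linarith)
      simp only at h3
      rw [← hQ] at h3
      have h4 : Real.log τ ≤ Real.log v + Real.log 2 := by
        rw [← Real.log_mul (by exact_mod_cast hv.ne') (by norm_num)]
        apply Real.log_le_log (by exact_mod_cast hτ)
        exact_mod_cast (by omega : τ ≤ v * 2)
      nlinarith
    · -- both are `1`
      rw [huv, Nat.coprime_self] at hcop
      have h3 : τ = 2 := by omega
      rw [h3]
      push_cast
      nlinarith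
    · have h3 := h1 Y hY π k hπ (-1) (Or.inr rfl) (v, u) hv huv hcop.symm nv nu
        (by
          have h4 : ((π ^ k : ℕ) : ℤ) ∣ ((τ : ℕ) : ℤ) := Int.natCast_dvd_natCast.2 hdvd
          rw [← hs] at h4
          push_cast at h4 ⊢
          convert h4 using 1
          ring)
        (by
          simp only
          have h4 : Real.log u ≤ Real.log τ :=
            Real.log_le_log (by exact_mod_cast hu) (by exact_mod_cast (by omega : u ≤ τ))
          have h5 : (k : ℝ) * Real.log Y ≤ k * (π + (1 + Real.log Y)) :=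
            mul_le_mul_of_nonneg_left (by linarith) (Nat.cast_nonneg k)
          have h6 : 0 ≤ Real.log u := Real.log_natCast_nonneg u
          linarith)
      simp only at h3
      rw [← hQ] at h3
      have h4 : Real.log τ ≤ Real.log u + Real.log 2 := by
        rw [← Real.log_mul (by exact_mod_cast hu.ne') (by norm_num)]
        apply Real.log_le_log (by exact_mod_cast hτ)
        exact_mod_cast (by omega : τ ≤ u * 2)
      nlinarith
  · -- `v = u + τ` is the largest number
    have hmax : max u (max v τ) = v := by omega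
    rw [hmax]
    have huv : u < v := by omega
    by_cases hbig : Real.log v ≤ 2 * Real.log τ
    · have h3 := h1 Y hY π k hπ 1 (Or.inl rfl) (u, v) hu huv hcop nu nv
        (by
          have h4 : ((π ^ k : ℕ) : ℤ) ∣ ((τ : ℕ) : ℤ) := Int.natCast_dvd_natCast.2 hdvd
          have h5 : ((v : ℕ) : ℤ) - 1 * ((u : ℕ) : ℤ) = ((τ : ℕ) : ℤ) := by
            rw [← hs]
            push_cast
            ring
          simp only
          rw [h5]
          exact h4)
        (by
          simp only
          have h5 : (k : ℝ) * Real.log Y ≤ k * (π + (1 + Real.log Y)) :=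
            mul_le_mul_of_nonneg_left (by linarith) (Nat.cast_nonneg k)
          linarith)
      simp only at h3
      rw [← hQ] at h3
      nlinarith
    · rw [not_le] at hbig
      have h3 := h2 Y hY (u, v) hu huv nu nv
        (by
          simp only
          have h4 : v - u = τ := by omega
          rw [h4]
          have hτ0 : (0 : ℝ) < τ := by exact_mod_cast hτ
          have hv0 : (0 : ℝ) < v := by exact_mod_cast hv
          rw [← Real.exp_log hτ0, Real.rpow_def_of_pos hv0]
          apply Real.exp_le_exp.2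
          linarith)
      simp only at h3
      nlinarith

/-- The bound for triples in any order. -/
theorem height3 (n : ℕ) : ∃ C : ℝ, ∃ κ : ℕ, 0 < C ∧
    ∀ Y : ℝ, 1 ≤ Y → ∀ u v τ : ℕ, 0 < u → 0 < v → 0 < τ → Nat.Coprime u v →
      NB n Y u → NB n Y v → NB n Y τ → Sum3 u v τ →
      ∀ π k : ℕ, π.Prime → π ^ k ∣ τ → Real.log τ ≤ 2 * (k * Real.log Y) →
      Real.log (max u (max v τ) : ℕ) ≤ C * (π + (1 + Real.log Y)) ^ κ := by
  obtain ⟨C, κ, hC, h⟩ := height_aux n
  refine ⟨C, κ, hC, ?_⟩
  intro Y hY u v τ hu hv hτ hcop nu nv nτ hsum π k hπ hdvd hlog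
  rcases hsum with hs | hs | hs
  · exact h Y hY u v τ hu hv hτ hcop nu nv nτ (Or.inl hs) π k hπ hdvd hlog
  · have h1 := h Y hY v u τ hv hu hτ hcop.symm nv nu nτ (Or.inr hs) π k hπ hdvd hlog
    have h2 : max v (max u τ) = max u (max v τ) := by omega
    rwa [h2] at h1
  · exact h Y hY u v τ hu hv hτ hcop nu nv nτ (Or.inr (by omega)) π k hπ hdvd hlog

end Pool.Agent.K6.H50.SGF
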