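import Pool.Agent.K6.H50.SGF.Exact

/-!
# The polynomial equation
-/

set_option autoImplicit false

namespace Pool.Agent.K6.H50.SGF

open Polynomial

theorem coeff_zero_term {A : ℚ[X]} {a : ℚ} {p : ℕ} (ha : a ≠ 0) (hA : A.coeff 0 ≠ 0) :
    (C a * A ^ p).coeff 0 ≠ 0 := by
  rw [mul_coeff_zero, coeff_C_zero, coeff_zero_eq_eval_zero, eval_pow, ← coeff_zero_eq_eval_zero]
  exact mul_ne_zero ha (pow_ne_zero _ hA)

/-- `A (A ^ p)' = p A' A ^ p` -/
theorem mul_derivative_pow (A : ℚ[X]) (p : ℕ) :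
    A * derivative (A ^ p) = C (p : ℚ) * derivative A * A ^ p := by
  rcases p with _ | p
  · simp
  · rw [derivative_pow, Nat.add_sub_cancel]
    ring

theorem X_mul_derivative_X_pow (κ : ℕ) :
    X * derivative ((X : ℚ[X]) ^ κ) = C (κ : ℚ) * X ^ κ := by
  rcases κ with _ | κ
  · simp
  · rw [derivative_X_pow, Nat.add_sub_cancel]
    ring

theorem exact_three {A B D : ℚ[X]} {a b c : ℚ} {p q r κ m n : ℕ} (ha : a ≠ 0) (hb : b ≠ 0)
    (hc : c ≠ 0) (hA : A.coeff 0 ≠ 0) (hB : B.coeff 0 ≠ 0) (hD : D.coeff 0 ≠ 0)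
    (dA : A.natDegree ≤ n) (dB : B.natDegree ≤ n) (dD : D.natDegree ≤ n) (hm : 9 * n < m)
    (hκ : κ < m) (h : X ^ m ∣ C a * A ^ p + C b * B ^ q + C c * (X ^ κ * D ^ r)) :
    C a * A ^ p + C b * B ^ q + C c * (X ^ κ * D ^ r) = 0 := by
  have hA0 : A ≠ 0 := by rintro rfl; simp at hA
  have hB0 : B ≠ 0 := by rintro rfl; simp at hB
  have hD0 : D ≠ 0 := by rintro rfl; simp at hD
  have e1 : (X * A * B * D).natDegree ≤ 3 * n + 1 := by
    refine natDegree_mul_le.trans ?_
    have h1 : (X * A * B).natDegree ≤ 2 * n + 1 := by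
      refine natDegree_mul_le.trans ?_
      have h2 : (X * A).natDegree ≤ n + 1 := natDegree_mul_le.trans (by rw [natDegree_X]; omega)
      omega
    omega
  have d1 : ∀ E F G : ℚ[X], E.natDegree ≤ n → F.natDegree ≤ n → G.natDegree ≤ n → ∀ t : ℚ,
      ((C t * X * F * G) * derivative E).natDegree ≤ 3 * n := by
    intro E F G hE hF hG t
    refine (natDegree_mul_derivative (a := 2 * n) ?_ hE).trans (by omega)
    refine natDegree_mul_le.trans ?_
    have h1 : (C t * X * F).natDegree ≤ n + 1 := by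
      refine natDegree_mul_le.trans ?_
      have h2 : (C t * (X : ℚ[X])).natDegree ≤ 1 := (natDegree_C_mul_le _ _).trans natDegree_X_le
      omega
    omega
  refine exact3 (m := m) (δ := 3 * n) (R := X * A * B * D)
    (LF := (C (p : ℚ) * X * B * D) * derivative A)
    (LG := (C (q : ℚ) * X * A * D) * derivative B)
    (LH := C (κ : ℚ) * (A * B * D) + (C (r : ℚ) * X * A * B) * derivative D)
    ?_ ?_ ?_ ?_ ?_ (coeff_zero_term ha hA) (coeff_zero_term hb hB) ?_
    (d1 A B D dA dB dD _) (d1 B A D dB dA dD _) ?_ e1 (by omega) h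
  · exact ⟨A * B * D, by ring⟩
  · exact mul_ne_zero (mul_ne_zero (mul_ne_zero X_ne_zero hA0) hB0) hD0
  · rw [derivative_C_mul]
    have := mul_derivative_pow A p
    linear_combination C a * X * B * D * this
  · rw [derivative_C_mul]
    have := mul_derivative_pow B q
    linear_combination C b * X * A * D * this
  · rw [derivative_C_mul, derivative_mul]
    have h1 := mul_derivative_pow D r
    have h2 := X_mul_derivative_X_pow κ
    linear_combination C c * A * B * D * D ^ r * h2 + C c * X * A * B * X ^ κ * h1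
  · intro h1
    rw [X_pow_dvd_iff] at h1
    have h2 := h1 κ hκ
    rw [coeff_C_mul, coeff_X_pow_mul'] at h2
    simp only [le_refl, if_true, Nat.sub_self] at h2
    rw [coeff_zero_eq_eval_zero, eval_pow, ← coeff_zero_eq_eval_zero] at h2
    exact mul_ne_zero hc (pow_ne_zero _ hD) h2
  · refine (natDegree_add_le _ _).trans (max_le ?_ (d1 D A B dD dA dB _))
    refine (natDegree_C_mul_le _ _).trans (natDegree_mul_le.trans ?_)
    have h2 : (A * B).natDegree ≤ 2 * n := natDegree_mul_le.trans (by omega)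
    omega

theorem exact_two {A B : ℚ[X]} {a b : ℚ} {p q m n : ℕ} (ha : a ≠ 0) (hb : b ≠ 0)
    (hA : A.coeff 0 ≠ 0) (hB : B.coeff 0 ≠ 0)
    (dA : A.natDegree ≤ n) (dB : B.natDegree ≤ n) (hm : 9 * n < m)
    (h : X ^ m ∣ C a * A ^ p + C b * B ^ q) : C a * A ^ p + C b * B ^ q = 0 := by
  have hA0 : A ≠ 0 := by rintro rfl; simp at hA
  have hB0 : B ≠ 0 := by rintro rfl; simp at hB
  have d1 : ∀ E F : ℚ[X], E.natDegree ≤ n → F.natDegree ≤ n → ∀ t : ℚ,
      ((C t * X * F) * derivative E).natDegree ≤ 2 * n := by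
    intro E F hE hF t
    refine (natDegree_mul_derivative (a := n) ?_ hE).trans (by omega)
    refine natDegree_mul_le.trans ?_
    have h2 : (C t * (X : ℚ[X])).natDegree ≤ 1 := (natDegree_C_mul_le _ _).trans natDegree_X_le
    omega
  refine exact2 (m := m) (R := X * A * B)
    (LF := (C (p : ℚ) * X * B) * derivative A)
    (LG := (C (q : ℚ) * X * A) * derivative B)
    ?_ ?_ ?_ ?_ (coeff_zero_term ha hA) (coeff_zero_term hb hB) ?_ ?_ h
  · exact ⟨A * B, by ring⟩
  · exact mul_ne_zero (mul_ne_zero X_ne_zero hA0) hB0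
  · rw [derivative_C_mul]
    have := mul_derivative_pow A p
    linear_combination C a * X * B * this
  · rw [derivative_C_mul]
    have := mul_derivative_pow B q
    linear_combination C b * X * A * this
  · exact lt_of_le_of_lt (d1 A B dA dB _) (by omega)
  · exact lt_of_le_of_lt (d1 B A dB dA _) (by omega)

/-- Coprime solutions of the generalised Fermat equation in polynomials are constant. -/
theorem const_three {A B D : ℚ[X]} {a b c : ℚ} {p q r κ : ℕ} (hp : p ≠ 0) (hq : q ≠ 0)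
    (hr : r ≠ 0) (hineq : q * r + r * p + p * q ≤ p * q * r)
    (ha : a ≠ 0) (hb : b ≠ 0) (hc : c ≠ 0) (hA : A ≠ 0) (hB : B ≠ 0) (hD : D ≠ 0)
    (hcop : IsCoprime A B) (h : C a * A ^ p + C b * B ^ q + C c * (X ^ κ * D ^ r) = 0) :
    A.natDegree = 0 ∧ B.natDegree = 0 ∧ D.natDegree = 0 ∧ κ = 0 := by
  have hr0 : 0 < r := Nat.pos_of_ne_zero hr
  have h1 := congrArg (expand ℚ r) h
  rw [map_add, map_add, map_mul, map_mul, map_mul, map_mul, map_pow, map_pow, map_pow, map_pow,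
    map_zero, expand_C, expand_C, expand_C, expand_X, ← pow_mul, mul_comm r κ, pow_mul,
    ← mul_pow] at h1
  have hne : ∀ E : ℚ[X], E ≠ 0 → expand ℚ r E ≠ 0 := fun E hE => (expand_ne_zero hr0).2 hE
  have hcop' : IsCoprime (expand ℚ r A) (expand ℚ r B) := hcop.map (expand ℚ r).toRingHom
  obtain ⟨h2, h3, h4⟩ := Polynomial.flt_catalan hp hq hr hineq (by exact_mod_cast hp)
    (by exact_mod_cast hq) (by exact_mod_cast hr) (hne A hA) (hne B hB)
    (mul_ne_zero (pow_ne_zero κ X_ne_zero) (hne D hD)) hcop' ha hb hc h1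
  rw [natDegree_expand] at h2 h3
  rw [natDegree_mul (pow_ne_zero κ X_ne_zero) (hne D hD), natDegree_X_pow,
    natDegree_expand] at h4
  refine ⟨?_, ?_, ?_, by omega⟩
  · exact (mul_eq_zero.1 h2).resolve_right hr
  · exact (mul_eq_zero.1 h3).resolve_right hr
  · exact (mul_eq_zero.1 (by omega : D.natDegree * r = 0)).resolve_right hr

theorem const_two {A B : ℚ[X]} {a b : ℚ} {p q : ℕ} (hp : p ≠ 0) (hq : q ≠ 0)
    (ha : a ≠ 0) (hb : b ≠ 0) (hcop : IsCoprime A B) (h : C a * A ^ p + C b * B ^ q = 0) :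
    A.natDegree = 0 ∧ B.natDegree = 0 := by
  have hcop' : IsCoprime (A ^ p) (B ^ q) := hcop.pow
  have ua : IsUnit (C a : ℚ[X]) := isUnit_C.2 (isUnit_iff_ne_zero.2 ha)
  have ub : IsUnit (C b : ℚ[X]) := isUnit_C.2 (isUnit_iff_ne_zero.2 hb)
  have h1 : A ^ p ∣ B ^ q := by
    have h2 : A ^ p ∣ C b * B ^ q := ⟨-C a, by linear_combination h⟩
    exact (ub.dvd_mul_left).1 h2
  have h2 : B ^ q ∣ A ^ p := by
    have h2 : B ^ q ∣ C a * A ^ p := ⟨-C b, by linear_combination h⟩
    exact (ua.dvd_mul_left).1 h2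
  have h3 : IsUnit (A ^ p) := hcop'.isUnit_of_dvd' dvd_rfl h1
  have h4 : IsUnit (B ^ q) := hcop'.isUnit_of_dvd' h2 dvd_rfl
  exact ⟨natDegree_eq_zero_of_isUnit ((isUnit_pow_iff hp).1 h3),
    natDegree_eq_zero_of_isUnit ((isUnit_pow_iff hq).1 h4)⟩

end Pool.Agent.K6.H50.SGF
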