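import Pool.Agent.K6.H50.SGF.Rep
import Pool.Agent.K6.H50.SGF.Poly
import Pool.Agent.K6.H50.SGF.Cop

/-!
# The generalised Fermat equation in numbers close to short sums of powers of `g`
-/

set_option autoImplicit false

namespace Pool.Agent.K6.H50.SGF

open Polynomial
open Pool.Agent.K6.H50.SPF (val wt wt_nonneg)

theorem approx (E : Finset ℕ) (N m : ℕ) (hN : 1 ≤ N) (hm : 1 ≤ m) :
    ∃ (Q : ℕ) (α : ℕ → ℕ) (e : ℤ), 1 ≤ Q ∧ Q ≤ (4 * m) ^ E.card ∧ 0 ≤ e ∧ 4 * (m * e) ≤ N ∧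
      e < N ∧ ∀ i ∈ E, |(Q : ℤ) * i - α i * N| ≤ e := by
  classical
  obtain ⟨Q, hQ1, hQ2, hQ⟩ := Pool.Agent.N449.SF.dirichlet N (4 * m) hN (by omega) (insert 0 E)
    (Finset.mem_insert_self 0 E)
  choose! β hβ using hQ
  have hN' : (1 : ℤ) ≤ N := by exact_mod_cast hN
  have hm' : (0 : ℤ) < ((4 * m : ℕ) : ℤ) := by exact_mod_cast (by omega : 0 < 4 * m)
  have hdiv : ((4 * m : ℕ) : ℤ) * ((N : ℤ) / ((4 * m : ℕ) : ℤ)) ≤ N := Int.mul_ediv_self_le hm'.ne'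
  have h0 : 0 ≤ (N : ℤ) / ((4 * m : ℕ) : ℤ) := Int.ediv_nonneg (by positivity) hm'.le
  have hlt : (N : ℤ) / ((4 * m : ℕ) : ℤ) < N := by
    have h4 : (4 : ℤ) ≤ ((4 * m : ℕ) : ℤ) := by exact_mod_cast (by omega : 4 ≤ 4 * m)
    nlinarith
  refine ⟨Q, fun i => (β i).toNat, (N : ℤ) / ((4 * m : ℕ) : ℤ), hQ1, ?_, h0, ?_, hlt, ?_⟩
  · refine hQ2.trans (Nat.pow_le_pow_right (by omega) ?_)
    have := Finset.card_insert_le 0 E
    omega
  · calc 4 * ((m : ℤ) * ((N : ℤ) / ((4 * m : ℕ) : ℤ)))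
        = ((4 * m : ℕ) : ℤ) * ((N : ℤ) / ((4 * m : ℕ) : ℤ)) := by push_cast; ring
      _ ≤ N := hdiv
  · intro i hi
    have h1 := hβ i (Finset.mem_insert_of_mem hi)
    have h2 : |(Q : ℤ) * i - β i * N| ≤ (N : ℤ) / ((4 * m : ℕ) : ℤ) := by
      rw [Int.le_ediv_iff_mul_le hm', mul_comm]
      exact h1.le
    have h3 : 0 ≤ β i := by
      by_contra hcon
      have h4 : β i ≤ -1 := by omega
      have h5 : (N : ℤ) ≤ (Q : ℤ) * i - β i * N := by
        have : (0 : ℤ) ≤ (Q : ℤ) * i := by positivity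
        nlinarith
      have h6 := le_abs_self ((Q : ℤ) * i - β i * N)
      linarith
    simp only
    rw [Int.toNat_of_nonneg h3]
    exact h2

theorem trunc_pow {R : Type*} [CommRing R] {v D : R} (x0 : R) (p m : ℕ) (h : D ∣ v) :
    D ^ m ∣ (x0 + v) ^ p - ∑ j ∈ Finset.range m, (p.choose j : R) * x0 ^ (p - j) * v ^ j := by
  have h1 : (x0 + v) ^ p =
      ∑ j ∈ Finset.range (max m (p + 1)), (p.choose j : R) * x0 ^ (p - j) * v ^ j := by
    rw [add_comm, add_pow]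
    rw [← Finset.sum_subset (Finset.range_mono (le_max_right m (p + 1)))]
    · exact Finset.sum_congr rfl fun j _ => by ring
    · intro j _ hj
      rw [Finset.mem_range, not_lt] at hj
      rw [Nat.choose_eq_zero_of_lt (by omega)]
      simp
  rw [h1, ← Finset.sum_sdiff (Finset.range_mono (le_max_left m (p + 1))), add_sub_cancel_right]
  refine Finset.dvd_sum fun j hj => ?_
  rw [Finset.mem_sdiff, Finset.mem_range, Finset.mem_range, not_lt] at hj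
  exact Dvd.dvd.mul_left ((pow_dvd_pow D hj.2).trans (pow_dvd_pow_of_dvd h j)) _

/-- The truncated binomial series of `(x₀ + ξ) ^ p`. -/
noncomputable def tr (m p : ℕ) (x0 : ℤ) (ξ : ℤ[X]) : ℤ[X] :=
  ∑ j ∈ Finset.range m, C ((p.choose j : ℤ) * x0 ^ (p - j)) * ξ ^ j

theorem tr_poly {m p Q : ℕ} {x0 : ℤ} {ξ : ℤ[X]} (h : X ^ Q ∣ ξ) :
    X ^ (m * Q) ∣ (C x0 + ξ) ^ p - tr m p x0 ξ := by
  have h1 := trunc_pow (C x0) p m h
  rw [← pow_mul, mul_comm Q m] at h1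
  convert h1 using 2
  unfold tr
  refine Finset.sum_congr rfl fun j _ => ?_
  rw [C_mul, C_pow, C_eq_natCast]

theorem tr_eval {g m p N : ℕ} {x0 : ℤ} {ξ : ℤ[X]} (h : (g : ℤ) ^ N ∣ ξ.eval 1) :
    (g : ℤ) ^ (m * N) ∣ (x0 + ξ.eval 1) ^ p - (tr m p x0 ξ).eval 1 := by
  have h1 := trunc_pow x0 p m h
  rw [← pow_mul, mul_comm N m] at h1
  have e1 : (tr m p x0 ξ).eval 1 =
      ∑ j ∈ Finset.range m, (p.choose j : ℤ) * x0 ^ (p - j) * (ξ.eval 1) ^ j := by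
    unfold tr
    rw [eval_finsetSum]
    refine Finset.sum_congr rfl fun j _ => ?_
    rw [eval_mul, eval_C, eval_pow]
  rw [e1]
  exact h1

theorem sum_V (V : ℤ) (hV : 2 ≤ V) (m : ℕ) :
    ∑ j ∈ Finset.range m, V ^ (2 * j + 1) ≤ V ^ (2 * m) := by
  induction m with
  | zero => simp
  | succ m ih =>
    rw [Finset.sum_range_succ]
    have h1 : V ^ (2 * (m + 1)) = V ^ (2 * m) * V ^ 2 := by rw [← pow_add]; congr 1
    have h2 : V ^ (2 * m + 1) = V ^ (2 * m) * V := by rw [pow_succ]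
    rw [h1, h2]
    have h3 : 0 < V ^ (2 * m) := by positivity
    have h4 : 1 + V ≤ V ^ 2 := by nlinarith
    nlinarith [mul_le_mul_of_nonneg_left h4 h3.le]

theorem tr_rep {g Q N m p : ℕ} {x0 V e : ℤ} {ξ : ℤ[X]} (he : 0 ≤ e) (hV : 2 ≤ V)
    (hp : (p : ℤ) ≤ V) (hx0 : x0 ≠ 0) (hx : |x0| ^ p ≤ V) (hξ : Rep g Q N ξ V e) :
    Rep g Q N (tr m p x0 ξ) (V ^ (2 * m)) (((m : ℤ) - 1) * e) := by
  have h1 : Rep g Q N (tr m p x0 ξ) (∑ j ∈ Finset.range m, V ^ (2 * j + 1))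
      (((m : ℤ) - 1) * e) := by
    refine Rep.sum m _ _ fun j hj => ?_
    have h2 := (hξ.pow j).C_mul ((p.choose j : ℤ) * x0 ^ (p - j))
    refine h2.mono ?_ ?_
    · rw [abs_mul, Nat.abs_cast, abs_pow]
      have h3 : ((p.choose j : ℕ) : ℤ) ≤ V ^ j := by
        have h4 : ((p.choose j : ℕ) : ℤ) ≤ (p : ℤ) ^ j := by exact_mod_cast Nat.choose_le_pow p j
        exact h4.trans (pow_le_pow_left₀ (by positivity) hp j)
      have h4 : |x0| ^ (p - j) ≤ V := by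
        refine le_trans (pow_le_pow_right₀ ?_ (Nat.sub_le p j)) hx
        exact Int.one_le_abs hx0
      have hV0 : 0 < V := by linarith
      calc ((p.choose j : ℕ) : ℤ) * |x0| ^ (p - j) * V ^ j ≤ V ^ j * V * V ^ j := by
            refine mul_le_mul_of_nonneg_right ?_ (by positivity)
            exact mul_le_mul h3 h4 (by positivity) (by positivity)
        _ = V ^ (2 * j + 1) := by ring
    · refine mul_le_mul_of_nonneg_right ?_ he
      have : (j : ℤ) + 1 ≤ m := by exact_mod_cast hj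
      linarith
  exact h1.mono (sum_V V hV m) le_rfl

/-- the polynomial with the value `val g S u` at `1` -/
noncomputable def lift (g : ℕ) (S : Finset ℕ) (u : ℕ → ℤ) (α : ℕ → ℕ) : ℤ[X] :=
  ∑ i ∈ S, C (u i * (g : ℤ) ^ i) * X ^ α i

theorem lift_eval (g : ℕ) (S : Finset ℕ) (u : ℕ → ℤ) (α : ℕ → ℕ) :
    (lift g S u α).eval 1 = val g S u := by
  unfold lift val
  rw [eval_finsetSum]
  simp

theorem lift_dvd (g : ℕ) (S : Finset ℕ) (u : ℕ → ℤ) (α : ℕ → ℕ) {Q : ℕ}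
    (h : ∀ i ∈ S, Q ≤ α i) : X ^ Q ∣ lift g S u α :=
  Finset.dvd_sum fun i hi => Dvd.dvd.mul_left (pow_dvd_pow X (h i hi)) _

theorem lift_natDegree (g : ℕ) (S : Finset ℕ) (u : ℕ → ℤ) (α : ℕ → ℕ) {n : ℕ}
    (h : ∀ i ∈ S, α i ≤ n) : (lift g S u α).natDegree ≤ n :=
  natDegree_sum_le_of_forall_le S _ fun i hi => (natDegree_C_mul_X_pow_le _ _).trans (h i hi)

theorem val_dvd (g N : ℕ) (S : Finset ℕ) (u : ℕ → ℤ) (h : ∀ i ∈ S, N ≤ i) :
    (g : ℤ) ^ N ∣ val g S u :=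
  Finset.dvd_sum fun i hi => Dvd.dvd.mul_left (pow_dvd_pow _ (h i hi)) _

theorem numeric {L m Q s : ℕ} (hL : 1 ≤ L) (hm : m = 9 * L + 1) (hQ : Q ≤ (4 * m) ^ (s + 1)) :
    (2 * m + 6) * (2 * Q) < (200 * L) ^ (s + 2) := by
  have h1 : 4 * m ≤ 200 * L := by omega
  have h2 : (4 * m) ^ (s + 1) ≤ (200 * L) ^ (s + 1) := Nat.pow_le_pow_left h1 _
  have h3 : (2 * m + 6) * 2 < 200 * L := by omega
  have h4 : 0 < (200 * L) ^ (s + 1) := by positivity
  calc (2 * m + 6) * (2 * Q) = ((2 * m + 6) * 2) * Q := by ring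
    _ ≤ ((2 * m + 6) * 2) * (200 * L) ^ (s + 1) := Nat.mul_le_mul_left _ (hQ.trans h2)
    _ < (200 * L) * (200 * L) ^ (s + 1) := Nat.mul_lt_mul_of_pos_right h3 h4
    _ = (200 * L) ^ (s + 2) := by ring

theorem a_low {Q N a i e : ℤ} (h1 : Q * i - a * N ≤ e) (he : e < N) (hi : N ≤ i) (hQ : 0 ≤ Q)
    (hN : 0 < N) : Q ≤ a := by
  by_contra hcon
  have h2 : a + 1 ≤ Q := not_le.1 hcon
  have h3 := mul_le_mul_of_nonneg_left hi hQ
  have h4 := mul_le_mul_of_nonneg_right h2 hN.le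
  linarith

theorem a_high {Q N a i e L : ℤ} (h1 : -e ≤ Q * i - a * N) (he : e < N) (hi : i ≤ L * N)
    (hQ : 0 ≤ Q) (hN : 0 < N) : a ≤ L * Q := by
  by_contra hcon
  have h2 : L * Q + 1 ≤ a := not_le.1 hcon
  have h3 := mul_le_mul_of_nonneg_left hi hQ
  have h4 := mul_le_mul_of_nonneg_right h2 hN.le
  linarith

theorem a_k {Q N a k e m : ℤ} (h1 : -e ≤ Q * k - a * N) (he : e < N) (ha : m * Q ≤ a)
    (hm : 2 ≤ m) (hQ : 1 ≤ Q) (hN : 0 < N) : N ≤ k := by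
  by_contra hcon
  have h2 : k ≤ N := (not_le.1 hcon).le
  have h3 := mul_le_mul_of_nonneg_left h2 (by linarith : 0 ≤ Q)
  have h4 := mul_le_mul_of_nonneg_right ha hN.le
  have h5 : 2 * (Q * N) ≤ m * (Q * N) :=
    mul_le_mul_of_nonneg_right hm (mul_nonneg (by linarith) hN.le)
  have h6 : N ≤ Q * N := by
    have := mul_le_mul_of_nonneg_right hQ hN.le
    linarith
  have h7 : m * Q * N = m * (Q * N) := by ring
  linarith

theorem V_cube {V : ℤ} (hV : 2 ≤ V) : 4 * V ≤ V ^ 3 := by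
  have h1 : 4 ≤ V * V := by nlinarith
  have h2 := mul_le_mul_of_nonneg_right h1 (by linarith : 0 ≤ V)
  calc 4 * V ≤ V * V * V := h2
    _ = V ^ 3 := by ring

theorem V_cube' {V : ℤ} (hV : 2 ≤ V) : V * V + V * V ≤ V ^ 3 := by
  have h1 : 0 ≤ V * V := by positivity
  have h2 := mul_le_mul_of_nonneg_right hV h1
  calc V * V + V * V = 2 * (V * V) := by ring
    _ ≤ V * (V * V) := h2
    _ = V ^ 3 := by ring

theorem root_side {X : ℤ} {n : ℕ} (hX : X ≠ 0) (hn : n ≠ 0) {V : ℤ} (h : |X| ^ n ≤ V) :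
    |X| ≤ V := by
  refine le_trans ?_ h
  have := pow_le_pow_right₀ (Int.one_le_abs hX) (Nat.one_le_iff_ne_zero.2 hn)
  rwa [pow_one] at this

theorem main {s L g N V : ℕ} (hL : 1 ≤ L) (hg : 2 ≤ g) (hN : 1 ≤ N) (hV : 2 ≤ V)
    (hVN : V ^ ((200 * L) ^ (s + 2)) ≤ g ^ N) {p q r k : ℕ} (hp : p ≠ 0) (hq : q ≠ 0)
    (hr : r ≠ 0) (hineq : q * r + r * p + p * q ≤ p * q * r) (hpV : p ≤ V) (hqV : q ≤ V)
    (hrV : r ≤ V) {A B D x0 y0 z0 : ℤ} (hA : A ≠ 0) (hB : B ≠ 0) (hD : D ≠ 0) (hAV : |A| ≤ V)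
    (hBV : |B| ≤ V) (hDV : |D| ≤ V) (hx0 : x0 ≠ 0) (hy0 : y0 ≠ 0) (hz0 : z0 ≠ 0)
    (hxV : |x0| ^ p ≤ V) (hyV : |y0| ^ q ≤ V) (hzV : |z0| ^ r ≤ V) (Sx Sy Sz : Finset ℕ)
    (hS : (Sx ∪ Sy ∪ Sz).card ≤ s) (hSN : ∀ i ∈ Sx ∪ Sy ∪ Sz, N ≤ i ∧ i ≤ L * N)
    (u v w : ℕ → ℤ) (hu : wt Sx u ≤ V) (hv : wt Sy v ≤ V) (hw : wt Sz w ≤ V)
    (hcop : IsCoprime (x0 + val g Sx u) (y0 + val g Sy v))
    (heq : A * (x0 + val g Sx u) ^ p + B * (y0 + val g Sy v) ^ q +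
      D * (g : ℤ) ^ k * (z0 + val g Sz w) ^ r = 0) :
    val g Sx u = 0 ∧ val g Sy v = 0 ∧ val g Sz w = 0 := by
  classical
  have hg1 : (1 : ℤ) ≤ g := by exact_mod_cast (by omega : 1 ≤ g)
  have hN' : (1 : ℤ) ≤ N := by exact_mod_cast hN
  have hV' : (2 : ℤ) ≤ V := by exact_mod_cast hV
  set m := 9 * L + 1 with hm
  obtain ⟨Q, α, e, hQ1, hQ2, he0, hme, heN, hα⟩ :=
    approx (insert k (Sx ∪ Sy ∪ Sz)) N m hN (by omega)
  have hQ3 : Q ≤ (4 * m) ^ (s + 1) := by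
    refine hQ2.trans (Nat.pow_le_pow_right (by omega) ?_)
    have := Finset.card_insert_le k (Sx ∪ Sy ∪ Sz)
    omega
  have hQ' : (1 : ℤ) ≤ Q := by exact_mod_cast hQ1
  -- the size condition
  have hbig : ((V : ℤ) ^ (2 * m + 6)) ^ (2 * Q) < (g : ℤ) ^ N := by
    rw [← pow_mul]
    have h1 : V ^ ((2 * m + 6) * (2 * Q)) < V ^ ((200 * L) ^ (s + 2)) :=
      Nat.pow_lt_pow_right (by omega) (numeric hL hm hQ3)
    exact_mod_cast h1.trans_le hVN
  have hbig' : ∀ W : ℤ, 0 ≤ W → 8 * W ≤ (V : ℤ) ^ (2 * m + 6) → (8 * W) ^ (2 * Q) < (g : ℤ) ^ N :=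
    fun W h0 h => lt_of_le_of_lt (pow_le_pow_left₀ (by positivity) h _) hbig
  -- positions
  have hαN : ∀ i ∈ Sx ∪ Sy ∪ Sz, |(Q : ℤ) * i - α i * N| ≤ e := fun i hi =>
    hα i (Finset.mem_insert_of_mem hi)
  have hαk : |(Q : ℤ) * k - α k * N| ≤ e := hα k (Finset.mem_insert_self _ _)
  have hαQ : ∀ i ∈ Sx ∪ Sy ∪ Sz, Q ≤ α i := by
    intro i hi
    have h2 : (N : ℤ) ≤ i := by exact_mod_cast (hSN i hi).1
    exact_mod_cast a_low (abs_le.1 (hαN i hi)).2 heN h2 (by linarith) (by linarith)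
  have hαL : ∀ i ∈ Sx ∪ Sy ∪ Sz, α i ≤ L * Q := by
    intro i hi
    have h2 : (i : ℤ) ≤ L * N := by exact_mod_cast (hSN i hi).2
    exact_mod_cast a_high (abs_le.1 (hαN i hi)).1 heN h2 (by linarith) (by linarith)
  have hx : Sx ⊆ Sx ∪ Sy ∪ Sz := fun i hi => by simp [hi]
  have hy : Sy ⊆ Sx ∪ Sy ∪ Sz := fun i hi => by simp [hi]
  have hz : Sz ⊆ Sx ∪ Sy ∪ Sz := fun i hi => by simp [hi]
  -- the polynomials
  set ξ := lift g Sx u α with hξ
  set η := lift g Sy v α with hη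
  set ζ := lift g Sz w α with hζ
  have eξ : ξ.eval 1 = val g Sx u := lift_eval g Sx u α
  have eη : η.eval 1 = val g Sy v := lift_eval g Sy v α
  have eζ : ζ.eval 1 = val g Sz w := lift_eval g Sz w α
  have Rξ : Rep g Q N ξ V e := (Rep.digits Sx u α fun i hi => hαN i (hx hi)).mono hu le_rfl
  have Rη : Rep g Q N η V e := (Rep.digits Sy v α fun i hi => hαN i (hy hi)).mono hv le_rfl
  have Rζ : Rep g Q N ζ V e := (Rep.digits Sz w α fun i hi => hαN i (hz hi)).mono hw le_rfl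
  have Xξ : X ^ Q ∣ ξ := lift_dvd g Sx u α fun i hi => hαQ i (hx hi)
  have Xη : X ^ Q ∣ η := lift_dvd g Sy v α fun i hi => hαQ i (hy hi)
  have Xζ : X ^ Q ∣ ζ := lift_dvd g Sz w α fun i hi => hαQ i (hz hi)
  have vξ : (g : ℤ) ^ N ∣ ξ.eval 1 := by
    rw [eξ]; exact val_dvd g N Sx u fun i hi => (hSN i (hx hi)).1
  have vη : (g : ℤ) ^ N ∣ η.eval 1 := by
    rw [eη]; exact val_dvd g N Sy v fun i hi => (hSN i (hy hi)).1
  have vζ : (g : ℤ) ^ N ∣ ζ.eval 1 := by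
    rw [eζ]; exact val_dvd g N Sz w fun i hi => (hSN i (hz hi)).1
  -- the truncated equation
  have hpV' : (p : ℤ) ≤ V := by exact_mod_cast hpV
  have hqV' : (q : ℤ) ≤ V := by exact_mod_cast hqV
  have hrV' : (r : ℤ) ≤ V := by exact_mod_cast hrV
  set F : ℤ[X] := C A * tr m p x0 ξ + C B * tr m q y0 η +
    C (D * (g : ℤ) ^ k) * X ^ α k * tr m r z0 ζ with hF
  have hFrep : Rep g Q N F ((V : ℤ) ^ (2 * m + 3)) (m * e) := by
    have h1 := (tr_rep (m := m) he0 hV' hpV' hx0 hxV Rξ).C_mul A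
    have h2 := (tr_rep (m := m) he0 hV' hqV' hy0 hyV Rη).C_mul B
    have h3 := (Rep.term (g := g) (Q := Q) (N := N) D k (α k) hαk).mul
      (tr_rep (m := m) he0 hV' hrV' hz0 hzV Rζ)
    have e2 : e + ((m : ℤ) - 1) * e ≤ m * e := le_of_eq (by ring)
    have e1 : ((m : ℤ) - 1) * e ≤ m * e := by linarith
    refine (((h1.mono le_rfl e1).add (h2.mono le_rfl e1)).add (h3.mono le_rfl e2)).mono ?_ le_rfl
    have h4 : (0 : ℤ) < (V : ℤ) ^ (2 * m) := by positivity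
    have h5 : (V : ℤ) ^ (2 * m + 3) = (V : ℤ) ^ 3 * (V : ℤ) ^ (2 * m) := by ring
    rw [h5, ← add_mul, ← add_mul]
    refine mul_le_mul_of_nonneg_right ?_ h4.le
    have := V_cube hV'
    linarith
  have h8 : ∀ n, n + 3 ≤ 2 * m + 6 → 8 * (V : ℤ) ^ n ≤ (V : ℤ) ^ (2 * m + 6) := by
    intro n hn
    have h1 : (V : ℤ) ^ (n + 3) ≤ (V : ℤ) ^ (2 * m + 6) :=
      pow_le_pow_right₀ (by linarith) hn
    have h2 : (8 : ℤ) ≤ (V : ℤ) ^ 3 := by
      have h4 := pow_le_pow_left₀ (by norm_num : (0 : ℤ) ≤ 2) hV' 3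
      norm_num at h4
      exact h4
    have h3 : (0 : ℤ) ≤ (V : ℤ) ^ n := by positivity
    calc 8 * (V : ℤ) ^ n ≤ (V : ℤ) ^ 3 * (V : ℤ) ^ n := mul_le_mul_of_nonneg_right h2 h3
      _ = (V : ℤ) ^ (n + 3) := by ring
      _ ≤ _ := h1
  have hFval : (g : ℤ) ^ (m * N) ∣ F.eval 1 := by
    have h1 := Dvd.dvd.mul_left (tr_eval (m := m) (p := p) (x0 := x0) vξ) A
    have h2 := Dvd.dvd.mul_left (tr_eval (m := m) (p := q) (x0 := y0) vη) B
    have h3 := Dvd.dvd.mul_left (tr_eval (m := m) (p := r) (x0 := z0) vζ) (D * (g : ℤ) ^ k)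
    rw [eξ] at h1
    rw [eη] at h2
    rw [eζ] at h3
    have h4 := ((h1.add h2).add h3).neg_right
    have e1 : F.eval 1 = A * (tr m p x0 ξ).eval 1 + B * (tr m q y0 η).eval 1 +
        D * (g : ℤ) ^ k * (tr m r z0 ζ).eval 1 := by
      rw [hF]
      simp only [eval_add, eval_mul, eval_C, eval_pow, eval_X, one_pow, mul_one]
    have e2 : F.eval 1 = -(A * ((x0 + val g Sx u) ^ p - (tr m p x0 ξ).eval 1) +
        B * ((y0 + val g Sy v) ^ q - (tr m q y0 η).eval 1) +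
        D * (g : ℤ) ^ k * ((z0 + val g Sz w) ^ r - (tr m r z0 ζ).eval 1)) := by
      rw [e1]
      linear_combination heq
    rw [e2]
    exact h4
  have hFX : X ^ (m * Q) ∣ F :=
    hFrep.trunc hg hN (by positivity) (by linarith)
      (hbig' _ (by positivity) (h8 _ (by omega))) hFval
  have hFX' : X ^ (m * Q) ∣ C A * (C x0 + ξ) ^ p + C B * (C y0 + η) ^ q +
      C (D * (g : ℤ) ^ k) * (X ^ α k * (C z0 + ζ) ^ r) := by
    have h1 := Dvd.dvd.mul_left (tr_poly (m := m) (p := p) (x0 := x0) Xξ) (C A)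
    have h2 := Dvd.dvd.mul_left (tr_poly (m := m) (p := q) (x0 := y0) Xη) (C B)
    have h3 := Dvd.dvd.mul_left (tr_poly (m := m) (p := r) (x0 := z0) Xζ)
      (C (D * (g : ℤ) ^ k) * X ^ α k)
    have h4 := ((h1.add h2).add h3).add hFX
    convert h4 using 1
    rw [hF]
    ring
  -- the constant terms
  have c0 : ∀ (t : ℤ) (χ : ℤ[X]), X ^ Q ∣ χ → (C t + χ).coeff 0 = t := by
    intro t χ hχ
    rw [X_pow_dvd_iff] at hχ
    rw [coeff_add, coeff_C_zero, hχ 0 (by omega), add_zero]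
  -- coprimality
  have hcop' : IsCoprime ((C x0 + ξ).map (algebraMap ℤ ℚ)) ((C y0 + η).map (algebraMap ℤ ℚ)) := by
    refine coprime_of_roots _ _ ?_ ?_ ?_
    · rw [c0 x0 ξ Xξ]
      exact hx0
    · intro θ hθ
      have h1 : Rep g Q N (C x0 : ℤ[X]) |x0| e := by
        simpa using Rep.term (g := g) (Q := Q) (N := N) (e := e) x0 0 0 (by simpa using he0)
      have h2 : |x0| ≤ V := root_side hx0 hp hxV
      have h3 : Rep g Q N (C x0 + ξ) ((V : ℤ) ^ 3) e := by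
        refine (h1.add Rξ).mono ?_ le_rfl
        have := V_cube hV'
        linarith
      have h6 : (1 : ℤ) ≤ (V : ℤ) ^ 3 := by
        have := V_cube hV'
        linarith
      refine h3.root_lt hg hN hQ1 h6 ?_ (hbig' _ (by positivity) (h8 _ (by omega))) ?_
        θ hθ
      · have h4 : (1 : ℤ) ≤ m := by exact_mod_cast (by omega : 1 ≤ m)
        have h5 := mul_le_mul_of_nonneg_right h4 he0
        linarith
      · intro h4
        have h5 := c0 x0 ξ Xξ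
        rw [h4, coeff_zero] at h5
        exact hx0 h5.symm
    · rw [eval_add, eval_add, eval_C, eval_C, eξ, eη]
      exact hcop
  -- over the rational numbers
  have hinj : Function.Injective (algebraMap ℤ ℚ) := (algebraMap ℤ ℚ).injective_int
  set P1 := (C x0 + ξ).map (algebraMap ℤ ℚ) with hP1
  set P2 := (C y0 + η).map (algebraMap ℤ ℚ) with hP2
  set P3 := (C z0 + ζ).map (algebraMap ℤ ℚ) with hP3
  have hdvd : X ^ (m * Q) ∣ C (A : ℚ) * P1 ^ p + C (B : ℚ) * P2 ^ q +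
      C ((D : ℚ) * (g : ℚ) ^ k) * (X ^ α k * P3 ^ r) := by
    have h1 := Polynomial.map_dvd (algebraMap ℤ ℚ) hFX'
    simp only [Polynomial.map_add, Polynomial.map_mul, Polynomial.map_pow, map_X, map_C] at h1
    rw [hP1, hP2, hP3]
    simp only [Polynomial.map_add, map_C]
    convert h1 using 1
    simp
  have k0 : ∀ (t : ℤ) (χ : ℤ[X]), t ≠ 0 → X ^ Q ∣ χ →
      ((C t + χ).map (algebraMap ℤ ℚ)).coeff 0 ≠ 0 := by
    intro t χ ht hχ
    rw [coeff_map, c0 t χ hχ]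
    simpa using ht
  have kd : ∀ (t : ℤ) (χ : ℤ[X]), χ.natDegree ≤ L * Q →
      ((C t + χ).map (algebraMap ℤ ℚ)).natDegree ≤ L * Q := by
    intro t χ hχ
    refine natDegree_map_le.trans ((natDegree_add_le _ _).trans (max_le ?_ hχ))
    rw [natDegree_C]
    exact Nat.zero_le _
  have dξ : ξ.natDegree ≤ L * Q := lift_natDegree g Sx u α fun i hi => hαL i (hx hi)
  have dη : η.natDegree ≤ L * Q := lift_natDegree g Sy v α fun i hi => hαL i (hy hi)
  have dζ : ζ.natDegree ≤ L * Q := lift_natDegree g Sz w α fun i hi => hαL i (hz hi)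
  have hAq : (A : ℚ) ≠ 0 := by exact_mod_cast hA
  have hBq : (B : ℚ) ≠ 0 := by exact_mod_cast hB
  have hDq : (D : ℚ) * (g : ℚ) ^ k ≠ 0 := by
    refine mul_ne_zero (by exact_mod_cast hD) (pow_ne_zero _ ?_)
    exact_mod_cast (by omega : g ≠ 0)
  have h9 : 9 * (L * Q) < m * Q := by
    have h1 : m * Q = 9 * (L * Q) + Q := by rw [hm]; ring
    omega
  -- a constant polynomial has a vanishing value
  have kend : ∀ (t : ℤ) (χ : ℤ[X]), X ^ Q ∣ χ →
      ((C t + χ).map (algebraMap ℤ ℚ)).natDegree = 0 → χ.eval 1 = 0 := by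
    intro t χ hχ h0
    rw [natDegree_map_eq_of_injective hinj] at h0
    have h1 := eq_C_of_natDegree_eq_zero h0
    rw [c0 t χ hχ] at h1
    have h2 : χ = 0 := by linear_combination h1
    rw [h2, eval_zero]
  by_cases hκ : α k < m * Q
  · have hex := exact_three hAq hBq hDq (k0 x0 ξ hx0 Xξ) (k0 y0 η hy0 Xη) (k0 z0 ζ hz0 Xζ)
      (kd x0 ξ dξ) (kd y0 η dη) (kd z0 ζ dζ) h9 hκ hdvd
    have hne : ∀ P : ℚ[X], P.coeff 0 ≠ 0 → P ≠ 0 := by
      rintro P h1 rfl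
      simp at h1
    obtain ⟨a1, a2, a3, -⟩ := const_three hp hq hr hineq hAq hBq hDq
      (hne _ (k0 x0 ξ hx0 Xξ)) (hne _ (k0 y0 η hy0 Xη)) (hne _ (k0 z0 ζ hz0 Xζ)) hcop' hex
    rw [← eξ, ← eη, ← eζ]
    exact ⟨kend x0 ξ Xξ a1, kend y0 η Xη a2, kend z0 ζ Xζ a3⟩
  · -- the power of `g` is too high
    exfalso
    rw [not_lt] at hκ
    have h1 : X ^ (m * Q) ∣ C (A : ℚ) * P1 ^ p + C (B : ℚ) * P2 ^ q := by
      have h2 : X ^ (m * Q) ∣ C ((D : ℚ) * (g : ℚ) ^ k) * (X ^ α k * P3 ^ r) :=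
        Dvd.dvd.mul_left (Dvd.dvd.mul_right (pow_dvd_pow X hκ) _) _
      exact (dvd_add_left h2).1 hdvd
    have hex := exact_two hAq hBq (k0 x0 ξ hx0 Xξ) (k0 y0 η hy0 Xη) (kd x0 ξ dξ) (kd y0 η dη)
      h9 h1
    obtain ⟨a1, a2⟩ := const_two hp hq hAq hBq hcop' hex
    have vx : val g Sx u = 0 := by rw [← eξ]; exact kend x0 ξ Xξ a1
    have vy : val g Sy v = 0 := by rw [← eη]; exact kend y0 η Xη a2
    rw [vx, vy, add_zero, add_zero] at heq
    -- `k` is at least `N`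
    have hkN : N ≤ k := by
      have h3 : (m : ℤ) * Q ≤ α k := by exact_mod_cast hκ
      have h4 : (2 : ℤ) ≤ m := by exact_mod_cast (by omega : 2 ≤ m)
      exact_mod_cast a_k (abs_le.1 hαk).1 heN h3 h4 hQ' (by linarith)
    have hVg : (V : ℤ) ^ 3 < (g : ℤ) ^ N := by
      have h2 : (V : ℤ) ^ 3 ≤ ((V : ℤ) ^ (2 * m + 6)) ^ (2 * Q) := by
        rw [← pow_mul]
        refine pow_le_pow_right₀ (by linarith) ?_
        calc 3 ≤ (2 * m + 6) * 1 := by omega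
          _ ≤ (2 * m + 6) * (2 * Q) := Nat.mul_le_mul_left _ (by omega)
      exact lt_of_le_of_lt h2 hbig
    have hsum : A * x0 ^ p + B * y0 ^ q = 0 := by
      have h2 : (g : ℤ) ^ N ∣ A * x0 ^ p + B * y0 ^ q := by
        have h3 : A * x0 ^ p + B * y0 ^ q = (g : ℤ) ^ k * (-(D * (z0 + val g Sz w) ^ r)) := by
          linear_combination heq
        rw [h3]
        exact Dvd.dvd.mul_right (pow_dvd_pow _ hkN) _
      refine Int.eq_zero_of_abs_lt_dvd h2 (lt_of_le_of_lt ?_ hVg)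
      calc |A * x0 ^ p + B * y0 ^ q| ≤ |A| * |x0| ^ p + |B| * |y0| ^ q := by
            rw [← abs_pow, ← abs_pow, ← abs_mul, ← abs_mul]
            exact abs_add_le _ _
        _ ≤ V * V + V * V := by
            refine add_le_add ?_ ?_
            · exact mul_le_mul hAV hxV (by positivity) (by positivity)
            · exact mul_le_mul hBV hyV (by positivity) (by positivity)
        _ ≤ (V : ℤ) ^ 3 := V_cube' hV'
    have hz1 : (z0 + val g Sz w) ^ r = 0 := by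
      have h2 : D * (g : ℤ) ^ k * (z0 + val g Sz w) ^ r = 0 := by linear_combination heq - hsum
      rcases mul_eq_zero.1 h2 with h3 | h3
      · exact absurd h3 (mul_ne_zero hD (by positivity))
      · exact h3
    have hz2 : z0 + val g Sz w = 0 := pow_eq_zero_iff hr |>.1 hz1
    have hz3 : (g : ℤ) ^ N ∣ z0 := by
      have h2 : z0 = -val g Sz w := by linear_combination hz2
      rw [h2]
      exact (val_dvd g N Sz w fun i hi => (hSN i (hz hi)).1).neg_right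
    apply hz0
    refine Int.eq_zero_of_abs_lt_dvd hz3 (lt_of_le_of_lt ?_ hVg)
    have h2 : |z0| ≤ V := root_side hz0 hr hzV
    have := V_cube hV'
    linarith

end Pool.Agent.K6.H50.SGF
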