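import Pool.Agent.K6.H50.SPF.Main

/-!
# Integer polynomials whose coefficients are short sums of powers of `g`
-/

set_option autoImplicit false

namespace Pool.Agent.K6.H50.SGF

open Polynomial Finset
open Pool.Agent.K6.H50.SPF (val wt block gapW)

/-- `F` is a sum of terms `c g ^ x X ^ l` with `|Q x - l N| ≤ e` and `∑ |c| ≤ w`. -/
def Rep (g Q N : ℕ) (F : ℤ[X]) (w e : ℤ) : Prop :=
  ∃ (ι : Type) (_ : Fintype ι) (c : ι → ℤ) (x l : ι → ℕ),
    F = ∑ i, C (c i * (g : ℤ) ^ x i) * X ^ l i ∧ ∑ i, |c i| ≤ w ∧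
    ∀ i, |(Q : ℤ) * x i - l i * N| ≤ e

theorem Rep.nonneg {g Q N : ℕ} {F : ℤ[X]} {w e : ℤ} (h : Rep g Q N F w e) : 0 ≤ w := by
  obtain ⟨ι, _, c, x, l, -, h2, -⟩ := h
  exact (Finset.sum_nonneg fun i _ => abs_nonneg (c i)).trans h2

theorem Rep.mono {g Q N : ℕ} {F : ℤ[X]} {w e w' e' : ℤ} (h : Rep g Q N F w e) (hw : w ≤ w')
    (he : e ≤ e') : Rep g Q N F w' e' := by
  obtain ⟨ι, _, c, x, l, h1, h2, h3⟩ := h
  exact ⟨ι, _, c, x, l, h1, h2.trans hw, fun i => (h3 i).trans he⟩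

theorem Rep.mul {g Q N : ℕ} {F G : ℤ[X]} {w e w' e' : ℤ} (hF : Rep g Q N F w e)
    (hG : Rep g Q N G w' e') : Rep g Q N (F * G) (w * w') (e + e') := by
  have hw := hF.nonneg
  obtain ⟨ι, _, c, x, l, h1, h2, h3⟩ := hF
  obtain ⟨κ, _, c', x', l', h1', h2', h3'⟩ := hG
  refine ⟨ι × κ, inferInstance, fun p => c p.1 * c' p.2, fun p => x p.1 + x' p.2,
    fun p => l p.1 + l' p.2, ?_, ?_, ?_⟩
  · rw [h1, h1', Finset.sum_mul_sum, Fintype.sum_prod_type]
    refine Finset.sum_congr rfl fun i _ => Finset.sum_congr rfl fun j _ => ?_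
    simp only [pow_add, C_mul]
    ring
  · rw [Fintype.sum_prod_type]
    simp only [abs_mul]
    rw [← Finset.sum_mul_sum]
    exact mul_le_mul h2 h2' (Finset.sum_nonneg fun i _ => abs_nonneg (c' i)) hw
  · rintro ⟨i, j⟩
    have e1 : (Q : ℤ) * ((x i + x' j : ℕ) : ℤ) - ((l i + l' j : ℕ) : ℤ) * N =
        ((Q : ℤ) * x i - l i * N) + ((Q : ℤ) * x' j - l' j * N) := by
      push_cast
      ring
    simp only
    rw [e1]
    exact (abs_add_le _ _).trans (add_le_add (h3 i) (h3' j))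

theorem Rep.one {g Q N : ℕ} {e : ℤ} (he : 0 ≤ e) : Rep g Q N 1 1 e :=
  ⟨Unit, inferInstance, fun _ => 1, fun _ => 0, fun _ => 0, by simp, by simp, fun _ => by simpa⟩

theorem Rep.pow {g Q N : ℕ} {F : ℤ[X]} {w e : ℤ} (hF : Rep g Q N F w e) (n : ℕ) :
    Rep g Q N (F ^ n) (w ^ n) (n * e) := by
  induction n with
  | zero => simpa using Rep.one (g := g) (Q := Q) (N := N) (le_refl (0 : ℤ))
  | succ n ih =>
    rw [pow_succ, pow_succ]
    have := ih.mul hF
    refine this.mono le_rfl (le_of_eq ?_)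
    push_cast
    ring

theorem Rep.add {g Q N : ℕ} {F G : ℤ[X]} {w e w' : ℤ} (hF : Rep g Q N F w e)
    (hG : Rep g Q N G w' e) : Rep g Q N (F + G) (w + w') e := by
  obtain ⟨ι, _, c, x, l, h1, h2, h3⟩ := hF
  obtain ⟨κ, _, c', x', l', h1', h2', h3'⟩ := hG
  refine ⟨ι ⊕ κ, inferInstance, Sum.elim c c', Sum.elim x x', Sum.elim l l', ?_, ?_, ?_⟩
  · rw [h1, h1', Fintype.sum_sum_type]
    simp
  · rw [Fintype.sum_sum_type]
    simpa using add_le_add h2 h2'
  · rintro (i | j)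
    · exact h3 i
    · exact h3' j

theorem Rep.term {g Q N : ℕ} {e : ℤ} (a : ℤ) (x l : ℕ) (h : |(Q : ℤ) * x - l * N| ≤ e) :
    Rep g Q N (C (a * (g : ℤ) ^ x) * X ^ l) |a| e :=
  ⟨Unit, inferInstance, fun _ => a, fun _ => x, fun _ => l, by simp, by simp, fun _ => h⟩

theorem Rep.C_mul {g Q N : ℕ} {F : ℤ[X]} {w e : ℤ} (a : ℤ) (hF : Rep g Q N F w e) :
    Rep g Q N (C a * F) (|a| * w) e := by
  have h1 : Rep g Q N (C a : ℤ[X]) |a| 0 := by
    simpa using Rep.term (g := g) (Q := Q) (N := N) (e := 0) a 0 0 (by simp)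
  have := h1.mul hF
  rwa [zero_add] at this

theorem Rep.digits {g Q N : ℕ} {e : ℤ} (S : Finset ℕ) (u : ℕ → ℤ) (α : ℕ → ℕ)
    (h : ∀ i ∈ S, |(Q : ℤ) * i - α i * N| ≤ e) :
    Rep g Q N (∑ i ∈ S, C (u i * (g : ℤ) ^ i) * X ^ α i) (wt S u) e := by
  refine ⟨S, inferInstance, fun i => u i, fun i => i, fun i => α i, ?_, ?_, fun i => h i i.2⟩
  · exact (Finset.sum_coe_sort S (fun i => C (u i * (g : ℤ) ^ i) * (X : ℤ[X]) ^ α i)).symm
  · exact le_of_eq (Finset.sum_coe_sort S (fun i => |u i|))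

/-- Terms at different places are separated. -/
theorem gap {g Q N : ℕ} (hg : 2 ≤ g) (hN : 1 ≤ N) (hQ : 1 ≤ Q) {w e : ℤ} (hw : 0 ≤ w)
    (he : 4 * e ≤ N) (hbig : (8 * w) ^ (2 * Q) < (g : ℤ) ^ N) {x y l d : ℕ}
    (hx : |(Q : ℤ) * x - l * N| ≤ e) (hy : |(Q : ℤ) * y - d * N| ≤ e) (hl : l < d) :
    (8 * w) ^ (d - l) * (g : ℤ) ^ x < (g : ℤ) ^ y := by
  obtain ⟨m, rfl⟩ := Nat.exists_eq_add_of_lt hl
  have e1 : l + m + 1 - l = m + 1 := by omega
  rw [e1]
  have hN' : (1 : ℤ) ≤ N := by exact_mod_cast hN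
  refine gapW hg (N := N * (m + 1)) (B := 2 * Q) (Nat.mul_pos hN (Nat.succ_pos m)) ?_
    (K := 2 * (Q : ℤ)) (by positivity) (by push_cast; exact le_rfl) ?_
  · calc ((8 * w) ^ (m + 1)) ^ (2 * Q) = ((8 * w) ^ (2 * Q)) ^ (m + 1) := by
          rw [← pow_mul, ← pow_mul, mul_comm (m + 1) (2 * Q)]
      _ < ((g : ℤ) ^ N) ^ (m + 1) :=
          pow_lt_pow_left₀ hbig (by positivity) (Nat.succ_ne_zero m)
      _ = (g : ℤ) ^ (N * (m + 1)) := by rw [← pow_mul]
  · obtain ⟨h1, h2⟩ := abs_le.1 hx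
    obtain ⟨h3, h4⟩ := abs_le.1 hy
    have h5 : (0 : ℤ) ≤ m * N := by positivity
    push_cast at h3 h4 ⊢
    have h6 : 2 * (Q : ℤ) * ((y : ℤ) - x) = 2 * ((Q : ℤ) * y) - 2 * ((Q : ℤ) * x) := by ring
    rw [h6]
    nlinarith

/-- A polynomial which vanishes at `1` is zero. -/
theorem Rep.eq_zero {g Q N : ℕ} {F : ℤ[X]} {w e : ℤ} (hF : Rep g Q N F w e) (hg : 2 ≤ g)
    (hN : 1 ≤ N) (hQ : 1 ≤ Q) (he : 4 * e ≤ N) (hbig : (8 * w) ^ (2 * Q) < (g : ℤ) ^ N)
    (h0 : F.eval 1 = 0) : F = 0 := by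
  classical
  have hw := hF.nonneg
  obtain ⟨ι, _, c, x, l, h1, h2, h3⟩ := hF
  have hg0 : (0 : ℤ) < g := by exact_mod_cast (by omega : 0 < g)
  have hsum : ∑ i, c i * (g : ℤ) ^ x i = 0 := by
    rw [h1, eval_finsetSum] at h0
    simpa using h0
  have hgap : ∀ a ∈ (Finset.univ : Finset ι), ∀ b ∈ (Finset.univ : Finset ι),
      (l a : ℤ) < l b → (∑ i, |c i|) * (g : ℤ) ^ x a < (g : ℤ) ^ x b := by
    intro a _ b _ hab
    have hab' : l a < l b := by exact_mod_cast hab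
    have h4 := gap hg hN hQ hw he hbig (h3 a) (h3 b) hab'
    refine lt_of_le_of_lt (mul_le_mul_of_nonneg_right ?_ (by positivity)) h4
    rcases hw.eq_or_lt with hw0 | hw0
    · rw [← hw0] at h2 ⊢
      refine h2.trans ?_
      positivity
    · have h5 : w ≤ 8 * w := by linarith
      have h6 : (8 * w) ^ 1 ≤ (8 * w) ^ (l b - l a) :=
        pow_le_pow_right₀ (by linarith) (by omega)
      rw [pow_one] at h6
      linarith
  have hblock := fun L : ℤ => block g hg Finset.univ x c (fun i => (l i : ℤ)) hsum hgap L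
  ext k
  rw [h1, finsetSum_coeff, coeff_zero]
  have h4 := hblock k
  rw [Finset.sum_filter] at h4
  rw [← h4]
  refine Finset.sum_congr rfl fun i _ => ?_
  rw [coeff_C_mul_X_pow]
  by_cases hh : k = l i
  · rw [if_pos hh, if_pos (by rw [hh])]
  · rw [if_neg hh, if_neg (fun h => hh (by exact_mod_cast h.symm))]

theorem Rep.root_lt {g Q N : ℕ} {F : ℤ[X]} {w e : ℤ} (hF : Rep g Q N F w e) (hg : 2 ≤ g)
    (hN : 1 ≤ N) (hQ : 1 ≤ Q) (hw1 : 1 ≤ w) (he : 4 * e ≤ N)
    (hbig : (8 * w) ^ (2 * Q) < (g : ℤ) ^ N) (hF0 : F ≠ 0) (θ : ℂ)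
    (hθ : (F.map (Int.castRingHom ℂ)).eval θ = 0) : ‖θ‖ < 1 / 4 := by
  classical
  by_contra hcon
  rw [not_lt] at hcon
  obtain ⟨ι, _, c, x, l, h1, h2, h3⟩ := hF
  have hg0 : (0 : ℤ) < g := by exact_mod_cast (by omega : 0 < g)
  have hg0' : (0 : ℝ) < g := by exact_mod_cast hg0
  set d := F.natDegree with hd
  have hcoeff : ∀ k, F.coeff k = ∑ i with l i = k, c i * (g : ℤ) ^ x i := by
    intro k
    rw [h1, finsetSum_coeff, Finset.sum_filter]
    refine Finset.sum_congr rfl fun i _ => ?_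
    rw [coeff_C_mul_X_pow]
    by_cases hh : k = l i
    · rw [if_pos hh, if_pos hh.symm]
    · rw [if_neg hh, if_neg (fun h => hh h.symm)]
  have hlc : F.coeff d ≠ 0 := by
    rw [hd, coeff_natDegree]
    exact leadingCoeff_ne_zero.2 hF0
  -- the smallest exponent in the leading coefficient
  have hne : (Finset.univ.filter fun i => l i = d).Nonempty := by
    by_contra hemp
    rw [Finset.not_nonempty_iff_eq_empty] at hemp
    apply hlc
    rw [hcoeff, hemp]
    simp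
  obtain ⟨i₀, hi₀, hmin⟩ := (Finset.univ.filter fun i => l i = d).exists_min_image x hne
  set m := x i₀ with hm
  have hli₀ : l i₀ = d := (Finset.mem_filter.1 hi₀).2
  have hlead : (g : ℝ) ^ m ≤ |(F.coeff d : ℝ)| := by
    have hdvd : (g : ℤ) ^ m ∣ F.coeff d := by
      rw [hcoeff]
      refine Finset.dvd_sum fun i hi => ?_
      exact Dvd.dvd.mul_left (pow_dvd_pow _ (hmin i hi)) _
    have h4 := Int.le_of_dvd (abs_pos.2 hlc) ((dvd_abs _ _).2 hdvd)
    exact_mod_cast h4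
  -- the other coefficients
  have hθ0 : 0 < ‖θ‖ := by linarith
  have hw' : (1 : ℝ) ≤ w := by exact_mod_cast hw1
  have hterm : ∀ i, l i < d → |(c i : ℝ)| * (g : ℝ) ^ x i * ‖θ‖ ^ l i ≤
      |(c i : ℝ)| * ((g : ℝ) ^ m * ‖θ‖ ^ d / (2 * w)) := by
    intro i hi
    have h5 := gap hg hN hQ (by linarith) he hbig (h3 i) (h3 i₀) (by rw [hli₀]; exact hi)
    rw [hli₀, ← hm] at h5
    have h6 : (8 * (w : ℝ)) ^ (d - l i) * (g : ℝ) ^ x i ≤ (g : ℝ) ^ m := by exact_mod_cast h5.le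
    have h7 : (1 : ℝ) ≤ 4 * ‖θ‖ := by linarith
    have h8 : ‖θ‖ ^ d = ‖θ‖ ^ l i * ‖θ‖ ^ (d - l i) := by
      rw [← pow_add]
      congr 1
      omega
    have h9 : (2 * (w : ℝ)) ≤ (2 * (w : ℝ)) ^ (d - l i) := by
      have := pow_le_pow_right₀ (by linarith : (1 : ℝ) ≤ 2 * w) (by omega : 1 ≤ d - l i)
      rwa [pow_one] at this
    have h10 : (1 : ℝ) ≤ (4 * ‖θ‖) ^ (d - l i) := one_le_pow₀ h7
    rw [mul_assoc]
    refine mul_le_mul_of_nonneg_left ?_ (abs_nonneg _)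
    rw [le_div_iff₀ (by linarith)]
    calc (g : ℝ) ^ x i * ‖θ‖ ^ l i * (2 * w)
        ≤ (g : ℝ) ^ x i * ‖θ‖ ^ l i * ((2 * (w : ℝ)) ^ (d - l i) * (4 * ‖θ‖) ^ (d - l i)) := by
          refine mul_le_mul_of_nonneg_left ?_ (by positivity)
          nlinarith
      _ = ((8 * (w : ℝ)) ^ (d - l i) * (g : ℝ) ^ x i) * (‖θ‖ ^ l i * ‖θ‖ ^ (d - l i)) := by
          rw [← mul_pow, show 2 * (w : ℝ) * (4 * ‖θ‖) = 8 * w * ‖θ‖ by ring, mul_pow]
          ring
      _ ≤ (g : ℝ) ^ m * ‖θ‖ ^ d := by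
          rw [← h8]
          exact mul_le_mul_of_nonneg_right h6 (by positivity)
  -- the value at `θ`
  have heval : (F.map (Int.castRingHom ℂ)).eval θ =
      ∑ k ∈ Finset.range (d + 1), (F.coeff k : ℂ) * θ ^ k := by
    rw [eval_map, eval₂_eq_sum_range]
    rfl
  rw [heval, Finset.sum_range_succ] at hθ
  have h4 : |(F.coeff d : ℝ)| * ‖θ‖ ^ d = ‖∑ k ∈ Finset.range d, (F.coeff k : ℂ) * θ ^ k‖ := by
    have h5 : (F.coeff d : ℂ) * θ ^ d = -∑ k ∈ Finset.range d, (F.coeff k : ℂ) * θ ^ k := by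
      linear_combination hθ
    rw [← norm_neg (∑ k ∈ Finset.range d, (F.coeff k : ℂ) * θ ^ k), ← h5, norm_mul, norm_pow]
    congr 1
    rw [← Complex.ofReal_intCast, Complex.norm_real, Real.norm_eq_abs]
  have h5 : ‖∑ k ∈ Finset.range d, (F.coeff k : ℂ) * θ ^ k‖ ≤
      ∑ k ∈ Finset.range d, ∑ i with l i = k, |(c i : ℝ)| * (g : ℝ) ^ x i * ‖θ‖ ^ l i := by
    refine (norm_sum_le _ _).trans (Finset.sum_le_sum fun k _ => ?_)
    rw [norm_mul, norm_pow, ← Complex.ofReal_intCast, Complex.norm_real, Real.norm_eq_abs,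
      hcoeff k]
    push_cast
    calc |∑ i with l i = k, (c i : ℝ) * (g : ℝ) ^ x i| * ‖θ‖ ^ k
        ≤ (∑ i with l i = k, |(c i : ℝ) * (g : ℝ) ^ x i|) * ‖θ‖ ^ k :=
          mul_le_mul_of_nonneg_right (Finset.abs_sum_le_sum_abs _ _) (by positivity)
      _ = ∑ i with l i = k, |(c i : ℝ)| * (g : ℝ) ^ x i * ‖θ‖ ^ l i := by
          rw [Finset.sum_mul]
          refine Finset.sum_congr rfl fun i hi => ?_
          rw [(Finset.mem_filter.1 hi).2, abs_mul, abs_of_nonneg (by positivity : (0 : ℝ) ≤ (g : ℝ) ^ x i)]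
  have h6 : ∑ k ∈ Finset.range d, ∑ i with l i = k, |(c i : ℝ)| * (g : ℝ) ^ x i * ‖θ‖ ^ l i ≤
      ∑ i, |(c i : ℝ)| * ((g : ℝ) ^ m * ‖θ‖ ^ d / (2 * w)) := by
    calc ∑ k ∈ Finset.range d, ∑ i with l i = k, |(c i : ℝ)| * (g : ℝ) ^ x i * ‖θ‖ ^ l i
        ≤ ∑ k ∈ Finset.range d, ∑ i with l i = k,
            |(c i : ℝ)| * ((g : ℝ) ^ m * ‖θ‖ ^ d / (2 * w)) := by
          refine Finset.sum_le_sum fun k hk => Finset.sum_le_sum fun i hi => hterm i ?_
          rw [(Finset.mem_filter.1 hi).2]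
          exact Finset.mem_range.1 hk
      _ ≤ ∑ i, |(c i : ℝ)| * ((g : ℝ) ^ m * ‖θ‖ ^ d / (2 * w)) := by
          have e1 : ∑ k ∈ Finset.range d, ∑ i with l i = k,
              |(c i : ℝ)| * ((g : ℝ) ^ m * ‖θ‖ ^ d / (2 * w)) =
              ∑ i with l i ∈ Finset.range d,
                |(c i : ℝ)| * ((g : ℝ) ^ m * ‖θ‖ ^ d / (2 * w)) := by
            rw [← Finset.sum_fiberwise_of_maps_to (g := l) (t := Finset.range d)
              (fun i hi => (Finset.mem_filter.1 hi).2)]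
            refine Finset.sum_congr rfl fun k hk => Finset.sum_congr ?_ fun _ _ => rfl
            ext i
            simp only [Finset.mem_filter, Finset.mem_univ, true_and]
            constructor
            · intro h
              exact ⟨h ▸ hk, h⟩
            · exact fun h => h.2
          rw [e1]
          exact Finset.sum_le_sum_of_subset_of_nonneg (Finset.filter_subset _ _)
            (fun _ _ _ => by positivity)
  have h7 : ∑ i, |(c i : ℝ)| * ((g : ℝ) ^ m * ‖θ‖ ^ d / (2 * w)) ≤ (g : ℝ) ^ m * ‖θ‖ ^ d / 2 := by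
    rw [← Finset.sum_mul]
    have h8 : ∑ i, |(c i : ℝ)| ≤ w := by exact_mod_cast h2
    calc (∑ i, |(c i : ℝ)|) * ((g : ℝ) ^ m * ‖θ‖ ^ d / (2 * w))
        ≤ w * ((g : ℝ) ^ m * ‖θ‖ ^ d / (2 * w)) :=
          mul_le_mul_of_nonneg_right h8 (by positivity)
      _ = (g : ℝ) ^ m * ‖θ‖ ^ d / 2 := by
          field_simp
  have h8 : (g : ℝ) ^ m * ‖θ‖ ^ d ≤ (g : ℝ) ^ m * ‖θ‖ ^ d / 2 := by
    calc (g : ℝ) ^ m * ‖θ‖ ^ d ≤ |(F.coeff d : ℝ)| * ‖θ‖ ^ d :=
          mul_le_mul_of_nonneg_right hlead (by positivity)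
      _ ≤ _ := by
          rw [h4]
          exact h5.trans (h6.trans h7)
  have h9 : 0 < (g : ℝ) ^ m * ‖θ‖ ^ d := by positivity
  linarith

theorem Rep.zero {g Q N : ℕ} (e : ℤ) : Rep g Q N 0 0 e :=
  ⟨Empty, inferInstance, Empty.elim, Empty.elim, Empty.elim, by simp, by simp, fun i => i.elim⟩

theorem Rep.sum {g Q N : ℕ} {e : ℤ} (m : ℕ) (F : ℕ → ℤ[X]) (w : ℕ → ℤ)
    (h : ∀ j < m, Rep g Q N (F j) (w j) e) :
    Rep g Q N (∑ j ∈ Finset.range m, F j) (∑ j ∈ Finset.range m, w j) e := by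
  induction m with
  | zero => simpa using Rep.zero e
  | succ m ih =>
    rw [Finset.sum_range_succ, Finset.sum_range_succ]
    exact (ih fun j hj => h j (by omega)).add (h m (by omega))

/-- If the value at `1` is divisible by a high power of `g`, then the low coefficients vanish. -/
theorem Rep.trunc {g Q N m : ℕ} {F : ℤ[X]} {w e : ℤ} (hF : Rep g Q N F w e) (hg : 2 ≤ g)
    (hN : 1 ≤ N) (he0 : 0 ≤ e) (he : 4 * e ≤ N)
    (hbig : (8 * w) ^ (2 * Q) < (g : ℤ) ^ N)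
    (h0 : (g : ℤ) ^ (m * N) ∣ F.eval 1) : X ^ (m * Q) ∣ F := by
  classical
  have hw := hF.nonneg
  obtain ⟨ι, _, c, x, l, h1, h2, h3⟩ := hF
  have hg0 : (0 : ℤ) < g := by exact_mod_cast (by omega : 0 < g)
  have hcoeff : ∀ k, F.coeff k = ∑ i with l i = k, c i * (g : ℤ) ^ x i := by
    intro k
    rw [h1, finsetSum_coeff, Finset.sum_filter]
    refine Finset.sum_congr rfl fun i _ => ?_
    rw [coeff_C_mul_X_pow]
    by_cases hh : k = l i
    · rw [if_pos hh, if_pos hh.symm]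
    · rw [if_neg hh, if_neg (fun h => hh h.symm)]
  have heval : F.eval 1 = ∑ i, c i * (g : ℤ) ^ x i := by
    rw [h1, eval_finsetSum]
    simp
  rw [X_pow_dvd_iff]
  intro d
  induction d using Nat.strong_induction_on with
  | _ d ih =>
    intro hd
    -- the least position of the higher terms
    let T : Finset ℕ := insert (m * N) ((Finset.univ.filter fun i => d < l i).image x)
    have hTn : T.Nonempty := ⟨m * N, Finset.mem_insert_self _ _⟩
    set t := T.min' hTn with ht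
    have htT : t ∈ T := T.min'_mem hTn
    have htmin : ∀ y ∈ T, t ≤ y := fun y hy => T.min'_le y hy
    have htlow : ((d : ℤ) + 1) * N - e ≤ Q * t := by
      rcases Finset.mem_insert.1 htT with h4 | h4
      · rw [h4]
        have h5 : (d + 1) * N ≤ Q * (m * N) := by
          calc (d + 1) * N ≤ (m * Q) * N := Nat.mul_le_mul_right _ hd
            _ = Q * (m * N) := by ring
        have h6 : ((d : ℤ) + 1) * N ≤ Q * ((m * N : ℕ) : ℤ) := by exact_mod_cast h5
        linarith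
      · obtain ⟨i, hi, hit⟩ := Finset.mem_image.1 h4
        rw [← hit]
        have h5 : (d : ℤ) + 1 ≤ l i := by exact_mod_cast (Finset.mem_filter.1 hi).2
        have h6 := (abs_le.1 (h3 i)).1
        have h7 : ((d : ℤ) + 1) * N ≤ l i * N :=
          mul_le_mul_of_nonneg_right h5 (by positivity)
        linarith
    have hlow : ∑ i with l i < d, c i * (g : ℤ) ^ x i = 0 := by
      rw [← Finset.sum_fiberwise_of_maps_to (g := l) (t := Finset.range d)
        (fun i hi => Finset.mem_range.2 (Finset.mem_filter.1 hi).2)]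
      refine Finset.sum_eq_zero fun k hk => ?_
      rw [← ih k (Finset.mem_range.1 hk) ((Finset.mem_range.1 hk).trans hd), hcoeff k]
      refine Finset.sum_congr ?_ fun _ _ => rfl
      ext i
      simp only [Finset.mem_filter, Finset.mem_univ, true_and]
      constructor
      · exact fun h => h.2
      · intro h
        exact ⟨h ▸ Finset.mem_range.1 hk, h⟩
    have hsplit : F.eval 1 = F.coeff d + ∑ i with d < l i, c i * (g : ℤ) ^ x i := by
      have e1 : ∑ i, c i * (g : ℤ) ^ x i = ∑ i with l i < d, c i * (g : ℤ) ^ x i +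
          ∑ i with ¬ l i < d, c i * (g : ℤ) ^ x i :=
        (Finset.sum_filter_add_sum_filter_not _ _ _).symm
      have e2 : ∑ i with ¬ l i < d, c i * (g : ℤ) ^ x i =
          ∑ i with l i = d, c i * (g : ℤ) ^ x i + ∑ i with d < l i, c i * (g : ℤ) ^ x i := by
        rw [← Finset.sum_filter_add_sum_filter_not (Finset.univ.filter fun i => ¬ l i < d)
          (fun i => l i = d)]
        congr 1
        · refine Finset.sum_congr ?_ fun _ _ => rfl
          ext i
          simp only [Finset.mem_filter, Finset.mem_univ, true_and]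
          omega
        · refine Finset.sum_congr ?_ fun _ _ => rfl
          ext i
          simp only [Finset.mem_filter, Finset.mem_univ, true_and]
          omega
      rw [heval, e1, hlow, e2, hcoeff d, zero_add]
    have hdvd1 : (g : ℤ) ^ t ∣ ∑ i with d < l i, c i * (g : ℤ) ^ x i := by
      refine Finset.dvd_sum fun i hi => Dvd.dvd.mul_left (pow_dvd_pow _ ?_) _
      exact htmin _ (Finset.mem_insert_of_mem (Finset.mem_image_of_mem _ hi))
    have hdvd2 : (g : ℤ) ^ t ∣ F.eval 1 :=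
      (pow_dvd_pow _ (htmin _ (Finset.mem_insert_self _ _))).trans h0
    have hdvd : (g : ℤ) ^ t ∣ F.coeff d := by
      rw [hsplit] at hdvd2
      exact (Int.dvd_add_left hdvd1).1 hdvd2
    have hterm : ∀ i, l i = d → (8 * w) * (g : ℤ) ^ x i < (g : ℤ) ^ t := by
      intro i hi
      refine gapW hg hN hbig (K := 2 * (Q : ℤ)) (by positivity)
        (by push_cast; exact le_rfl) ?_
      have h6 := (abs_le.1 (h3 i)).2
      rw [hi] at h6
      nlinarith
    refine Int.eq_zero_of_abs_lt_dvd hdvd ?_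
    have hgt : (0 : ℤ) < (g : ℤ) ^ t := by positivity
    have hle : |F.coeff d| ≤ ∑ i with l i = d, |c i| * (g : ℤ) ^ x i := by
      rw [hcoeff d]
      refine (Finset.abs_sum_le_sum_abs _ _).trans (le_of_eq ?_)
      refine Finset.sum_congr rfl fun i _ => ?_
      rw [abs_mul, abs_of_nonneg (by positivity : (0 : ℤ) ≤ (g : ℤ) ^ x i)]
    have hle2 : ∑ i with l i = d, |c i| ≤ w :=
      (Finset.sum_le_sum_of_subset_of_nonneg (Finset.filter_subset _ _)
        (fun _ _ _ => abs_nonneg _)).trans h2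
    rcases hw.eq_or_lt with hw0 | hw0
    · have h4 : ∀ i, l i = d → c i = 0 := by
        intro i hi
        have h5 : |c i| ≤ 0 := by
          rw [hw0]
          exact (Finset.single_le_sum (fun j _ => abs_nonneg (c j)) (Finset.mem_univ i)).trans h2
        exact abs_nonpos_iff.1 h5
      have h5 : F.coeff d = 0 := by
        rw [hcoeff d]
        refine Finset.sum_eq_zero fun i hi => ?_
        rw [h4 i (Finset.mem_filter.1 hi).2, zero_mul]
      rw [h5, abs_zero]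
      exact hgt
    · have h4 : (8 * w) * ∑ i with l i = d, |c i| * (g : ℤ) ^ x i ≤ w * (g : ℤ) ^ t := by
        rw [Finset.mul_sum]
        calc ∑ i with l i = d, 8 * w * (|c i| * (g : ℤ) ^ x i)
            ≤ ∑ i with l i = d, |c i| * (g : ℤ) ^ t := by
              refine Finset.sum_le_sum fun i hi => ?_
              have h5 := (hterm i (Finset.mem_filter.1 hi).2).le
              calc 8 * w * (|c i| * (g : ℤ) ^ x i) = |c i| * (8 * w * (g : ℤ) ^ x i) := by ring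
                _ ≤ |c i| * (g : ℤ) ^ t := mul_le_mul_of_nonneg_left h5 (abs_nonneg _)
          _ = (∑ i with l i = d, |c i|) * (g : ℤ) ^ t := by rw [Finset.sum_mul]
          _ ≤ w * (g : ℤ) ^ t := mul_le_mul_of_nonneg_right hle2 hgt.le
      have h5 : w * (8 * ∑ i with l i = d, |c i| * (g : ℤ) ^ x i) ≤ w * (g : ℤ) ^ t := by
        linarith
      have h6 := le_of_mul_le_mul_left h5 hw0
      have h7 : 0 ≤ ∑ i with l i = d, |c i| * (g : ℤ) ^ x i :=
        Finset.sum_nonneg fun i _ => by positivity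
      rcases h7.eq_or_lt with h8 | h8
      · rw [← h8] at hle
        linarith
      · linarith

end Pool.Agent.K6.H50.SGF
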