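import Pool.Agent.K6.H50.SGF.Main
import Pool.Agent.K6.H50.SGF.Defs

/-!
# Solutions of generalised Fermat equations whose bases are close to `±1` in base `g`: exponents
up to a power of the bases
-/

set_option autoImplicit false

namespace Pool.Agent.K6.H50.SGF

theorem hyp_nat {p q r : ℕ} (hp : 0 < p) (hq : 0 < q) (hr : 0 < r)
    (h : (1 : ℚ) / p + 1 / q + 1 / r ≤ 1) : q * r + r * p + p * q ≤ p * q * r := by
  have hp' : (0 : ℚ) < p := by exact_mod_cast hp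
  have hq' : (0 : ℚ) < q := by exact_mod_cast hq
  have hr' : (0 : ℚ) < r := by exact_mod_cast hr
  have h1 : (1 : ℚ) / p + 1 / q + 1 / r = (q * r + r * p + p * q) / (p * q * r) := by
    field_simp
  rw [h1, div_le_one (by positivity)] at h
  exact_mod_cast h

theorem two_le {p q r : ℕ} (hp : 0 < p) (hq : 0 < q) (hr : 0 < r)
    (h : (1 : ℚ) / p + 1 / q + 1 / r ≤ 1) : 2 ≤ p := by
  by_contra hcon
  have h1 : p = 1 := by omega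
  have hq' : (0 : ℚ) < 1 / q := by positivity
  have hr' : (0 : ℚ) < 1 / r := by positivity
  rw [h1] at h
  norm_num at h
  rw [one_div] at hq' hr'
  linarith

/-- The general theorem. -/
theorem general (s L : ℕ) (hL : 1 ≤ L) (g N : ℕ) (hg : 2 ≤ g) (hN : 1 ≤ N)
    (A B D x y z x₀ y₀ z₀ : ℤ) (p q r k : ℕ) (V : ℝ)
    (hV : V = (g : ℝ) ^ ((N : ℝ) / (200 * L) ^ (3 * s + 2)))
    (hp : 0 < p) (hq : 0 < q) (hr : 0 < r) (hyp : (1 : ℚ) / p + 1 / q + 1 / r ≤ 1)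
    (hpV : (p : ℝ) ≤ V) (hqV : (q : ℝ) ≤ V) (hrV : (r : ℝ) ≤ V)
    (hA : A ≠ 0) (hB : B ≠ 0) (hD : D ≠ 0) (hAV : |(A : ℝ)| ≤ V) (hBV : |(B : ℝ)| ≤ V)
    (hDV : |(D : ℝ)| ≤ V) (hx0 : x₀ ≠ 0) (hy0 : y₀ ≠ 0) (hz0 : z₀ ≠ 0)
    (hxV : |(x₀ : ℝ)| ^ p ≤ V) (hyV : |(y₀ : ℝ)| ^ q ≤ V) (hzV : |(z₀ : ℝ)| ^ r ≤ V)
    (hx : Near g N L s V x₀ x) (hy : Near g N L s V y₀ y) (hz : Near g N L s V z₀ z)
    (hcop : IsCoprime x y) (heq : A * x ^ p + B * y ^ q + D * (g : ℤ) ^ k * z ^ r = 0) :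
    x = x₀ ∧ y = y₀ ∧ z = z₀ := by
  classical
  obtain ⟨I, u, hI1, hI2, hI3, rfl⟩ := hx
  obtain ⟨J, v, hJ1, hJ2, hJ3, rfl⟩ := hy
  obtain ⟨M, w, hM1, hM2, hM3, rfl⟩ := hz
  have hg0 : (0 : ℝ) < g := by exact_mod_cast (by omega : 0 < g)
  have hV0 : 0 ≤ V := by
    rw [hV]
    positivity
  set W : ℕ := ⌊V⌋₊ with hW
  have hfl : ((W : ℕ) : ℤ) = ⌊V⌋ := Int.natCast_floor_eq_floor hV0
  have toW : ∀ n : ℤ, (n : ℝ) ≤ V → n ≤ (W : ℤ) := by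
    intro n hn
    rw [hfl]
    exact Int.le_floor.2 hn
  have toWn : ∀ n : ℕ, (n : ℝ) ≤ V → n ≤ W := fun n hn => Nat.le_floor hn
  have hW2 : 2 ≤ W := by
    have h1 := two_le hp hq hr hyp
    exact h1.trans (toWn p hpV)
  have hWK : W ^ ((200 * L) ^ (3 * s + 2)) ≤ g ^ N := by
    have h1 : (W : ℝ) ≤ V := Nat.floor_le hV0
    have hK : ((200 * L : ℝ) ^ (3 * s + 2)) ≠ 0 := by
      have : (0 : ℝ) < L := by exact_mod_cast hL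
      positivity
    have h2 : (W : ℝ) ^ ((200 * L) ^ (3 * s + 2)) ≤ (g : ℝ) ^ N := by
      calc (W : ℝ) ^ ((200 * L) ^ (3 * s + 2)) ≤ V ^ ((200 * L) ^ (3 * s + 2)) :=
            pow_le_pow_left₀ (by positivity) h1 _
        _ = (g : ℝ) ^ N := by
            have h4 : ((N : ℝ) / (200 * L) ^ (3 * s + 2)) *
                (((200 * L) ^ (3 * s + 2) : ℕ) : ℝ) = N := by
              push_cast
              exact div_mul_cancel₀ _ hK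
            rw [hV, ← Real.rpow_natCast (n := (200 * L) ^ (3 * s + 2)), ← Real.rpow_mul hg0.le,
              h4, Real.rpow_natCast]
    exact_mod_cast h2
  have hcard : (I ∪ J ∪ M).card ≤ 3 * s := by
    have h1 := Finset.card_union_le (I ∪ J) M
    have h2 := Finset.card_union_le I J
    omega
  have hmem : ∀ i ∈ I ∪ J ∪ M, N ≤ i ∧ i ≤ L * N := by
    intro i hi
    rcases Finset.mem_union.1 hi with h | h
    · rcases Finset.mem_union.1 h with h | h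
      · exact hI2 i h
      · exact hJ2 i h
    · exact hM2 i h
  have absW : ∀ n : ℤ, |(n : ℝ)| ≤ V → |n| ≤ (W : ℤ) := by
    intro n hn
    apply toW
    push_cast
    exact hn
  have powW : ∀ (n : ℤ) (e : ℕ), |(n : ℝ)| ^ e ≤ V → |n| ^ e ≤ (W : ℤ) := by
    intro n e hn
    apply toW
    push_cast
    exact hn
  obtain ⟨h1, h2, h3⟩ := Pool.Agent.K6.H50.SGF.main (s := 3 * s) (V := W) hL hg hN hW2 hWK
    hp.ne' hq.ne' hr.ne' (hyp_nat hp hq hr hyp) (toWn p hpV) (toWn q hqV) (toWn r hrV)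
    hA hB hD (absW A hAV) (absW B hBV) (absW D hDV) hx0 hy0 hz0 (powW _ _ hxV) (powW _ _ hyV)
    (powW _ _ hzV) I J M hcard hmem u v w (toW _ hI3) (toW _ hJ3) (toW _ hM3) hcop heq
  unfold Pool.Agent.K6.H50.SPF.val at h1 h2 h3
  rw [h1, h2, h3]
  simp

theorem not_all {a b c x y z : ℤ} {p q r : ℕ} (h : Sol a b c x y z p q r)
    {π : ℕ} (hπ : π.Prime) (h1 : (π : ℤ) ∣ a * x) (h2 : (π : ℤ) ∣ b * y)
    (h3 : (π : ℤ) ∣ c * z) : False := by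
  have h4 : (π : ℤ) ∣ (Int.gcd (a * x) (b * y) : ℤ) := Int.dvd_coe_gcd h1 h2
  have h5 : (π : ℤ) ∣ (Int.gcd (Int.gcd (a * x) (b * y)) (c * z) : ℤ) := Int.dvd_coe_gcd h4 h3
  rw [h.gcd] at h5
  have h6 : π ∣ 1 := by exact_mod_cast h5
  exact hπ.one_lt.ne' (Nat.dvd_one.1 h6)

theorem coprime_of {x y : ℤ}
    (h : ∀ π : ℕ, π.Prime → (π : ℤ) ∣ x → (π : ℤ) ∣ y → False) : IsCoprime x y := by
  rw [Int.isCoprime_iff_gcd_eq_one]
  by_contra hcon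
  obtain ⟨π, hπ, hd⟩ := Nat.exists_prime_and_dvd hcon
  have hd' : (π : ℤ) ∣ (Int.gcd x y : ℤ) := by exact_mod_cast hd
  exact h π hπ (hd'.trans (Int.gcd_dvd_left x y)) (hd'.trans (Int.gcd_dvd_right x y))

theorem dvd_of_dvd_mul_pow {ℓ : ℕ} (hℓ : ℓ.Prime) {a x : ℤ} {p : ℕ}
    (h : (ℓ : ℤ) ∣ a * x ^ p) : (ℓ : ℤ) ∣ a * x := by
  have hpr : Prime (ℓ : ℤ) := Nat.prime_iff_prime_int.1 hℓ
  rcases hpr.dvd_or_dvd h with h1 | h1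
  · exact Dvd.dvd.mul_right h1 _
  · exact Dvd.dvd.mul_left (hpr.dvd_of_dvd_pow h1) _

/-- the part prime to `ℓ` -/
theorem coef_free {ℓ : ℕ} (hℓ : ℓ.Prime) {V : ℝ} {a : ℤ} (ha : a ≠ 0) (h : Coef ℓ V a) :
    ∃ (α : ℤ) (i : ℕ), α ≠ 0 ∧ ¬ (ℓ : ℤ) ∣ α ∧ |(α : ℝ)| ≤ V ∧ a = α * (ℓ : ℤ) ^ i := by
  obtain ⟨j, β, rfl, hβ⟩ := h
  have hβ0 : β ≠ 0 := fun h0 => ha (by rw [h0, mul_zero])
  have hfin : FiniteMultiplicity (ℓ : ℤ) β := by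
    rw [Int.finiteMultiplicity_iff]
    exact ⟨by rw [Int.natAbs_natCast]; exact hℓ.one_lt.ne', hβ0⟩
  obtain ⟨α, h1, h2⟩ := hfin.exists_eq_pow_mul_and_not_dvd
  have hα0 : α ≠ 0 := fun h0 => h2 (by rw [h0]; exact dvd_zero _)
  refine ⟨α, j + multiplicity (ℓ : ℤ) β, hα0, h2, ?_, ?_⟩
  · refine le_trans ?_ hβ
    have h3 : (α : ℤ) ∣ β := ⟨_, by rw [mul_comm]; exact h1⟩
    have h4 : |α| ≤ |β| := Int.le_of_dvd (abs_pos.2 hβ0) ((abs_dvd_abs _ _).2 h3)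
    exact_mod_cast h4
  · rw [pow_add]
    conv_lhs => rw [h1]
    ring

theorem near_not_dvd {ℓ N L s : ℕ} (hℓ : ℓ.Prime) (hN : 1 ≤ N) {V : ℝ} {ε x : ℤ}
    (hε : ε = 1 ∨ ε = -1) (h : Near ℓ N L s V ε x) : ¬ (ℓ : ℤ) ∣ x := by
  obtain ⟨I, u, -, h2, -, rfl⟩ := h
  intro hd
  have h3 : (ℓ : ℤ) ∣ ∑ i ∈ I, u i * (ℓ : ℤ) ^ i := by
    refine Finset.dvd_sum fun i hi => Dvd.dvd.mul_left (dvd_pow_self _ ?_) _
    have := (h2 i hi).1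
    omega
  have h4 : (ℓ : ℤ) ∣ ε := (Int.dvd_add_left h3).1 hd
  have h5 : (ℓ : ℤ) ∣ 1 := by
    rcases hε with rfl | rfl
    · exact h4
    · exact (dvd_neg.1 h4)
  have h6 : ℓ ∣ 1 := by exact_mod_cast h5
  exact hℓ.one_lt.ne' (Nat.dvd_one.1 h6)

/-- The exponent `p` of the base `x` is at most `V`, or the base is `1` or `-1` (and `7 ≤ V`). -/
def Bnd (V : ℝ) (x : ℤ) (p : ℕ) : Prop := (p : ℝ) ≤ V ∨ (7 ≤ V ∧ (x = 1 ∨ x = -1))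

theorem five_six {q r : ℕ} (hq : 0 < q) (hr : 0 < r) (h : (1 : ℚ) / q + 1 / r < 1) :
    (1 : ℚ) / q + 1 / r ≤ 5 / 6 := by
  have hq' : (0 : ℚ) < q := by exact_mod_cast hq
  have hr' : (0 : ℚ) < r := by exact_mod_cast hr
  have h1 : (1 : ℚ) / q + 1 / r = (q + r) / (q * r) := by
    field_simp
    ring
  rw [h1, div_lt_one (by positivity)] at h
  have h2 : q + r < q * r := by exact_mod_cast h
  rw [h1, div_le_iff₀ (by positivity)]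
  have h3 : 6 * (q + r) ≤ 5 * (q * r) := by
    have hq2 : 2 ≤ q := by
      by_contra hcon
      have : q = 1 := by omega
      rw [this] at h2
      omega
    have hr2 : 2 ≤ r := by
      by_contra hcon
      have : r = 1 := by omega
      rw [this] at h2
      omega
    obtain ⟨q', rfl⟩ := Nat.exists_eq_add_of_le hq2
    obtain ⟨r', rfl⟩ := Nat.exists_eq_add_of_le hr2
    have h4 : (2 + q') * (2 + r') = 4 + 2 * q' + 2 * r' + q' * r' := by ring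
    rw [h4] at h2 ⊢
    nlinarith [Nat.zero_le (q' * r')]
  have h4 : (6 : ℚ) * (q + r) ≤ 5 * (q * r) := by exact_mod_cast h3
  linarith

/-- Large exponents of the bases `1` and `-1` can be replaced. -/
theorem repl {V : ℝ} {x : ℤ} {p q r : ℕ} (hp : 0 < p) (hq : 0 < q) (hr : 0 < r)
    (h : (1 : ℚ) / p + 1 / q + 1 / r ≤ 1) (hB : Bnd V x p) :
    ∃ p₁ : ℕ, 0 < p₁ ∧ (p₁ : ℝ) ≤ V ∧ x ^ p₁ = x ^ p ∧ (1 : ℚ) / p₁ + 1 / q + 1 / r ≤ 1 := by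
  by_cases hpV : (p : ℝ) ≤ V
  · exact ⟨p, hp, hpV, rfl, h⟩
  · obtain ⟨h7, hx⟩ := hB.resolve_left hpV
    have h1 : ((6 + p % 2 : ℕ) : ℝ) ≤ V := by
      have h2 : 6 + p % 2 ≤ 7 := by omega
      have h3 : ((6 + p % 2 : ℕ) : ℝ) ≤ 7 := by exact_mod_cast h2
      linarith
    refine ⟨6 + p % 2, by omega, h1, ?_, ?_⟩
    · rcases hx with rfl | rfl
      · simp
      · have h2 : 6 + p % 2 + 2 * (p / 2) = 6 + p := by omega
        have h3 : (-1 : ℤ) ^ (6 + p % 2 + 2 * (p / 2)) = (-1) ^ (6 + p) := by rw [h2]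
        rw [pow_add _ (6 + p % 2), pow_mul (-1) 2, pow_add _ 6 p] at h3
        norm_num at h3
        exact h3
    · have hp' : (0 : ℚ) < 1 / p := by positivity
      have h2 := five_six hq hr (by linarith)
      have h3 : (1 : ℚ) / ((6 + p % 2 : ℕ) : ℚ) ≤ 1 / 6 := by
        apply one_div_le_one_div_of_le (by norm_num)
        exact_mod_cast (by omega : 6 ≤ 6 + p % 2)
      linarith

/-- The case where the terms with `x` and `y` are prime to `ℓ`. -/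
theorem case_z (s L : ℕ) (hL : 1 ≤ L) {ℓ N : ℕ} (hℓ : ℓ.Prime) (hN : 1 ≤ N)
    {α β γ x y z εx εy εz : ℤ} {p q r k : ℕ} {V : ℝ}
    (hV : V = (ℓ : ℝ) ^ ((N : ℝ) / (200 * L) ^ (3 * s + 2)))
    (hp : 0 < p) (hq : 0 < q) (hr : 0 < r) (hyp : (1 : ℚ) / p + 1 / q + 1 / r ≤ 1)
    (hpV : Bnd V x p) (hqV : Bnd V y q) (hrV : Bnd V z r)
    (hα : α ≠ 0) (hβ : β ≠ 0) (hγ : γ ≠ 0) (hαV : |(α : ℝ)| ≤ V) (hβV : |(β : ℝ)| ≤ V)
    (hγV : |(γ : ℝ)| ≤ V)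
    (hεx : εx = 1 ∨ εx = -1) (hεy : εy = 1 ∨ εy = -1) (hεz : εz = 1 ∨ εz = -1)
    (hx : Near ℓ N L s V εx x) (hy : Near ℓ N L s V εy y) (hz : Near ℓ N L s V εz z)
    (hcop : IsCoprime x y) (heq : α * x ^ p + β * y ^ q + γ * (ℓ : ℤ) ^ k * z ^ r = 0) :
    x = εx ∧ y = εy ∧ z = εz := by
  obtain ⟨p₁, hp1, hp2, hp3, hyp1⟩ := repl hp hq hr hyp hpV
  obtain ⟨q₁, hq1, hq2, hq3, hyp2⟩ := repl hq hr hp1 (by linarith) hqV
  obtain ⟨r₁, hr1, hr2, hr3, hyp3⟩ := repl hr hp1 hq1 (by linarith) hrV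
  have h1V : (1 : ℝ) ≤ V := by
    have : (1 : ℝ) ≤ p₁ := by exact_mod_cast hp1
    linarith
  have n0 : ∀ ε : ℤ, (ε = 1 ∨ ε = -1) → ε ≠ 0 := by
    rintro ε (rfl | rfl) <;> norm_num
  have n2 : ∀ ε : ℤ, (ε = 1 ∨ ε = -1) → ∀ e : ℕ, |(ε : ℝ)| ^ e ≤ V := by
    rintro ε (rfl | rfl) e <;> simpa using h1V
  rw [← hp3, ← hq3, ← hr3] at heq
  exact general s L hL ℓ N hℓ.two_le hN α β γ x y z εx εy εz p₁ q₁ r₁ k V hV hp1 hq1 hr1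
    (by linarith) hp2 hq2 hr2 hα hβ hγ hαV hβV hγV (n0 _ hεx) (n0 _ hεy) (n0 _ hεz)
    (n2 _ hεx p₁) (n2 _ hεy q₁) (n2 _ hεz r₁) hx hy hz hcop heq

theorem isPower_of {ℓ t : ℕ} {ε x : ℤ} (hε : ε = 1 ∨ ε = -1) (h : x = (ℓ : ℤ) ^ t * ε) :
    IsPower ℓ x := by
  rcases hε with rfl | rfl
  · exact ⟨t, Or.inl (by rw [h, mul_one])⟩
  · exact ⟨t, Or.inr (by rw [h]; ring)⟩

/-- the coefficients -/
theorem parts {ℓ : ℕ} (hℓ : ℓ.Prime) {V : ℝ} {a b c x y z : ℤ} {p q r : ℕ}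
    (h : Sol a b c x y z p q r) (ha : Coef ℓ V a) (hb : Coef ℓ V b) (hc : Coef ℓ V c) :
    ∃ (α β γ : ℤ) (i1 i2 i3 : ℕ), α ≠ 0 ∧ β ≠ 0 ∧ γ ≠ 0 ∧ ¬ (ℓ : ℤ) ∣ α ∧ ¬ (ℓ : ℤ) ∣ β ∧
      ¬ (ℓ : ℤ) ∣ γ ∧ |(α : ℝ)| ≤ V ∧ |(β : ℝ)| ≤ V ∧ |(γ : ℝ)| ≤ V ∧
      a = α * (ℓ : ℤ) ^ i1 ∧ b = β * (ℓ : ℤ) ^ i2 ∧ c = γ * (ℓ : ℤ) ^ i3 := by
  have hane : a ≠ 0 := fun h0 => h.nz (by rw [h0]; ring)
  have hbne : b ≠ 0 := fun h0 => h.nz (by rw [h0]; ring)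
  have hcne : c ≠ 0 := fun h0 => h.nz (by rw [h0]; ring)
  obtain ⟨α, i1, a1, a2, a3, a4⟩ := coef_free hℓ hane ha
  obtain ⟨β, i2, b1, b2, b3, b4⟩ := coef_free hℓ hbne hb
  obtain ⟨γ, i3, c1, c2, c3, c4⟩ := coef_free hℓ hcne hc
  exact ⟨α, β, γ, i1, i2, i3, a1, b1, c1, a2, b2, c2, a3, b3, c3, a4, b4, c4⟩

theorem core (s L : ℕ) (hL : 1 ≤ L) (ℓ N : ℕ) (hℓ : ℓ.Prime) (hN : 1 ≤ N) (V : ℝ)
    (hV : V = (ℓ : ℝ) ^ ((N : ℝ) / (200 * L) ^ (3 * s + 2)))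
    {a b c x y z : ℤ} {p q r : ℕ} (h : Sol a b c x y z p q r)
    {α β γ εx εy εz x' y' z' : ℤ} {i1 i2 i3 t1 t2 t3 : ℕ}
    (hα : α ≠ 0) (hβ : β ≠ 0) (hγ : γ ≠ 0) (hα' : ¬ (ℓ : ℤ) ∣ α) (hβ' : ¬ (ℓ : ℤ) ∣ β)
    (hγ' : ¬ (ℓ : ℤ) ∣ γ) (hαV : |(α : ℝ)| ≤ V) (hβV : |(β : ℝ)| ≤ V) (hγV : |(γ : ℝ)| ≤ V)
    (ha : a = α * (ℓ : ℤ) ^ i1) (hb : b = β * (ℓ : ℤ) ^ i2) (hc : c = γ * (ℓ : ℤ) ^ i3)
    (hεx : εx = 1 ∨ εx = -1) (hεy : εy = 1 ∨ εy = -1) (hεz : εz = 1 ∨ εz = -1)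
    (hx' : Near ℓ N L s V εx x') (hy' : Near ℓ N L s V εy y') (hz' : Near ℓ N L s V εz z')
    (hxx : x = (ℓ : ℤ) ^ t1 * x') (hyy : y = (ℓ : ℤ) ^ t2 * y') (hzz : z = (ℓ : ℤ) ^ t3 * z')
    (hpV : Bnd V x' p) (hqV : Bnd V y' q) (hrV : Bnd V z' r) :
    x' = εx ∧ y' = εy ∧ z' = εz := by
  have hpr : Prime (ℓ : ℤ) := Nat.prime_iff_prime_int.1 hℓ
  obtain ⟨hp, hq, hr⟩ := h.pos
  have hyp := h.hyp.le
  -- the three terms
  have T1 : a * x ^ p = α * (ℓ : ℤ) ^ (i1 + t1 * p) * x' ^ p := by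
    rw [ha, hxx, mul_pow, pow_add, pow_mul]
    ring
  have T2 : b * y ^ q = β * (ℓ : ℤ) ^ (i2 + t2 * q) * y' ^ q := by
    rw [hb, hyy, mul_pow, pow_add, pow_mul]
    ring
  have T3 : c * z ^ r = γ * (ℓ : ℤ) ^ (i3 + t3 * r) * z' ^ r := by
    rw [hc, hzz, mul_pow, pow_add, pow_mul]
    ring
  have dvd_iff : ∀ (ε w : ℤ) (e n : ℕ), ¬ (ℓ : ℤ) ∣ ε → ¬ (ℓ : ℤ) ∣ w →
      ((ℓ : ℤ) ∣ ε * (ℓ : ℤ) ^ e * w ^ n ↔ e ≠ 0) := by
    intro ε w e n hε hw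
    constructor
    · intro hd h0
      rw [h0, pow_zero, mul_one] at hd
      rcases hpr.dvd_or_dvd hd with h1 | h1
      · exact hε h1
      · exact hw (hpr.dvd_of_dvd_pow h1)
    · intro h0
      exact Dvd.dvd.mul_right (Dvd.dvd.mul_left (dvd_pow_self _ h0) _) _
  have D1 : (ℓ : ℤ) ∣ a * x ^ p ↔ i1 + t1 * p ≠ 0 := by
    rw [T1]
    exact dvd_iff α x' _ p hα' (near_not_dvd hℓ hN hεx hx')
  have D2 : (ℓ : ℤ) ∣ b * y ^ q ↔ i2 + t2 * q ≠ 0 := by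
    rw [T2]
    exact dvd_iff β y' _ q hβ' (near_not_dvd hℓ hN hεy hy')
  have D3 : (ℓ : ℤ) ∣ c * z ^ r ↔ i3 + t3 * r ≠ 0 := by
    rw [T3]
    exact dvd_iff γ z' _ r hγ' (near_not_dvd hℓ hN hεz hz')
  have nall : ¬ ((ℓ : ℤ) ∣ a * x ^ p ∧ (ℓ : ℤ) ∣ b * y ^ q ∧ (ℓ : ℤ) ∣ c * z ^ r) := by
    rintro ⟨h1, h2, h3⟩
    exact not_all h hℓ (dvd_of_dvd_mul_pow hℓ h1) (dvd_of_dvd_mul_pow hℓ h2)
      (dvd_of_dvd_mul_pow hℓ h3)
  -- coprimality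
  have powdvd : ∀ (π : ℕ) (u w : ℤ) (e : ℕ), 0 < e → (π : ℤ) ∣ w → (π : ℤ) ∣ u * w ^ e :=
    fun π u w e he hd => Dvd.dvd.mul_left (hd.trans (dvd_pow_self _ he.ne')) _
  have Cxy : IsCoprime x y := coprime_of fun π hπ h1 h2 =>
    not_all h hπ (Dvd.dvd.mul_left h1 _) (Dvd.dvd.mul_left h2 _) (dvd_of_dvd_mul_pow hπ (p := r)
      (by rw [← h.eqn]; exact (powdvd π a x p hp h1).add (powdvd π b y q hq h2)))
  have Cyz : IsCoprime y z := coprime_of fun π hπ h1 h2 =>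
    not_all h hπ (dvd_of_dvd_mul_pow hπ (p := p)
      (by
        have e1 : a * x ^ p = c * z ^ r - b * y ^ q := by linear_combination h.eqn
        rw [e1]
        exact (powdvd π c z r hr h2).sub (powdvd π b y q hq h1)))
      (Dvd.dvd.mul_left h1 _) (Dvd.dvd.mul_left h2 _)
  have Cxz : IsCoprime x z := coprime_of fun π hπ h1 h2 =>
    not_all h hπ (Dvd.dvd.mul_left h1 _) (dvd_of_dvd_mul_pow hπ (p := q)
      (by
        have e1 : b * y ^ q = c * z ^ r - a * x ^ p := by linear_combination h.eqn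
        rw [e1]
        exact (powdvd π c z r hr h2).sub (powdvd π a x p hp h1)))
      (Dvd.dvd.mul_left h2 _)
  have tz : ∀ i t e : ℕ, 0 < e → i + t * e = 0 → t = 0 := by
    intro i t e he h0
    rcases Nat.eq_zero_or_pos t with h1 | h1
    · exact h1
    · have := Nat.mul_pos h1 he
      omega
  have negγ : -γ ≠ 0 := neg_ne_zero.2 hγ
  have negγV : |((-γ : ℤ) : ℝ)| ≤ V := by
    push_cast
    rw [abs_neg]
    exact hγV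
  have eqn := h.eqn
  rw [T1, T2, T3] at eqn
  by_cases e1 : i1 + t1 * p = 0
  · by_cases e2 : i2 + t2 * q = 0
    · -- the third term carries the power
      have hx1 : x = x' := by rw [hxx, tz _ _ _ hp e1, pow_zero, one_mul]
      have hy1 : y = y' := by rw [hyy, tz _ _ _ hq e2, pow_zero, one_mul]
      rw [e1, e2, pow_zero, mul_one, mul_one] at eqn
      rw [hx1, hy1] at Cxy
      exact case_z s L hL hℓ hN hV hp hq hr hyp hpV hqV hrV hα hβ negγ hαV hβV negγV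
        hεx hεy hεz hx' hy' hz' Cxy (k := i3 + t3 * r) (by linear_combination eqn)
    · -- the second term carries the power
      have e3 : i3 + t3 * r = 0 := by
        by_contra e3
        refine nall ⟨?_, D2.2 e2, D3.2 e3⟩
        have e4 : a * x ^ p = c * z ^ r - b * y ^ q := by linear_combination h.eqn
        rw [e4]
        exact (D3.2 e3).sub (D2.2 e2)
      have hx1 : x = x' := by rw [hxx, tz _ _ _ hp e1, pow_zero, one_mul]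
      have hz1 : z = z' := by rw [hzz, tz _ _ _ hr e3, pow_zero, one_mul]
      rw [e1, e3, pow_zero, mul_one, mul_one] at eqn
      rw [hx1, hz1] at Cxz
      have hyp' : (1 : ℚ) / p + 1 / r + 1 / q ≤ 1 := by linarith
      obtain ⟨g1, g2, g3⟩ := case_z s L hL hℓ hN hV hp hr hq hyp' hpV hrV hqV hα negγ hβ
        hαV negγV hβV hεx hεz hεy hx' hz' hy' Cxz (k := i2 + t2 * q) (by linear_combination eqn)
      exact ⟨g1, g3, g2⟩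
  · -- the first term carries the power
    have e2 : i2 + t2 * q = 0 := by
      by_contra e2
      refine nall ⟨D1.2 e1, D2.2 e2, ?_⟩
      rw [← h.eqn]
      exact (D1.2 e1).add (D2.2 e2)
    have e3 : i3 + t3 * r = 0 := by
      by_contra e3
      refine nall ⟨D1.2 e1, ?_, D3.2 e3⟩
      have e4 : b * y ^ q = c * z ^ r - a * x ^ p := by linear_combination h.eqn
      rw [e4]
      exact (D3.2 e3).sub (D1.2 e1)
    have hy1 : y = y' := by rw [hyy, tz _ _ _ hq e2, pow_zero, one_mul]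
    have hz1 : z = z' := by rw [hzz, tz _ _ _ hr e3, pow_zero, one_mul]
    rw [e2, e3, pow_zero, mul_one, mul_one] at eqn
    rw [hy1, hz1] at Cyz
    have hyp' : (1 : ℚ) / q + 1 / r + 1 / p ≤ 1 := by linarith
    obtain ⟨g1, g2, g3⟩ := case_z s L hL hℓ hN hV hq hr hp hyp' hqV hrV hpV hβ negγ hα
      hβV negγV hαV hεy hεz hεx hy' hz' hx' Cyz (k := i1 + t1 * p) (by linear_combination eqn)
    exact ⟨g3, g1, g2⟩

theorem solutions (s L : ℕ) (hL : 1 ≤ L) (ℓ N : ℕ) (hℓ : ℓ.Prime) (hN : 1 ≤ N) (V : ℝ)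
    (hV : V = (ℓ : ℝ) ^ ((N : ℝ) / (200 * L) ^ (3 * s + 2)))
    (a b c x y z : ℤ) (p q r : ℕ) (h : Sol a b c x y z p q r)
    (ha : Coef ℓ V a) (hb : Coef ℓ V b) (hc : Coef ℓ V c)
    (hx : NearPower ℓ N L s V x) (hy : NearPower ℓ N L s V y) (hz : NearPower ℓ N L s V z)
    (hpV : (p : ℝ) ≤ V) (hqV : (q : ℝ) ≤ V) (hrV : (r : ℝ) ≤ V) :
    IsPower ℓ x ∧ IsPower ℓ y ∧ IsPower ℓ z := by
  obtain ⟨t1, εx, x', hεx, hx', hxx⟩ := hx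
  obtain ⟨t2, εy, y', hεy, hy', hyy⟩ := hy
  obtain ⟨t3, εz, z', hεz, hz', hzz⟩ := hz
  obtain ⟨α, β, γ, i1, i2, i3, a1, b1, c1, a2, b2, c2, a3, b3, c3, a4, b4, c4⟩ :=
    parts hℓ h ha hb hc
  obtain ⟨h1, h2, h3⟩ := core s L hL ℓ N hℓ hN V hV h a1 b1 c1 a2 b2 c2 a3 b3 c3 a4 b4 c4
    hεx hεy hεz hx' hy' hz' hxx hyy hzz (Or.inl hpV) (Or.inl hqV) (Or.inl hrV)
  exact ⟨isPower_of hεx (by rw [hxx, h1]), isPower_of hεy (by rw [hyy, h2]),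
    isPower_of hεz (by rw [hzz, h3])⟩

end Pool.Agent.K6.H50.SGF
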