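import Pool.Agent.K6.H50.SGF.Sol
import Pool.Agent.K6.H50.SGF.Height

/-!
# Solutions of generalised Fermat equations whose bases are close to `±1` in base `ℓ`: all
exponents, if a small prime different from `ℓ` divides a base
-/

set_option autoImplicit false

namespace Pool.Agent.K6.H50.SGF

theorem cops {a b c x y z : ℤ} {p q r : ℕ} (h : Sol a b c x y z p q r) :
    Nat.Coprime (a * x ^ p).natAbs (b * y ^ q).natAbs ∧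
    Nat.Coprime (a * x ^ p).natAbs (c * z ^ r).natAbs ∧
    Nat.Coprime (b * y ^ q).natAbs (c * z ^ r).natAbs := by
  have cop : ∀ u v w : ℤ, (∀ ρ : ℕ, ρ.Prime → (ρ : ℤ) ∣ u → (ρ : ℤ) ∣ v → (ρ : ℤ) ∣ w → False) →
      (∀ ρ : ℕ, (ρ : ℤ) ∣ u → (ρ : ℤ) ∣ v → (ρ : ℤ) ∣ w) → Nat.Coprime u.natAbs v.natAbs := by
    intro u v w h1 h2
    refine Nat.coprime_of_dvd fun ρ hρ hu hv => ?_
    have hu' : (ρ : ℤ) ∣ u := Int.natCast_dvd.2 hu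
    have hv' : (ρ : ℤ) ∣ v := Int.natCast_dvd.2 hv
    exact h1 ρ hρ hu' hv' (h2 ρ hu' hv')
  have no : ∀ ρ : ℕ, ρ.Prime → (ρ : ℤ) ∣ a * x ^ p → (ρ : ℤ) ∣ b * y ^ q → (ρ : ℤ) ∣ c * z ^ r →
      False := fun ρ hρ h1 h2 h3 =>
    not_all h hρ (dvd_of_dvd_mul_pow hρ h1) (dvd_of_dvd_mul_pow hρ h2) (dvd_of_dvd_mul_pow hρ h3)
  refine ⟨?_, ?_, ?_⟩
  · exact cop _ _ (c * z ^ r) no fun ρ h1 h2 => by rw [← h.eqn]; exact h1.add h2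
  · exact cop _ _ (b * y ^ q) (fun ρ hρ h1 h2 h3 => no ρ hρ h1 h3 h2) fun ρ h1 h2 => by
      have e1 : b * y ^ q = c * z ^ r - a * x ^ p := by linear_combination h.eqn
      rw [e1]
      exact h2.sub h1
  · exact cop _ _ (a * x ^ p) (fun ρ hρ h1 h2 h3 => no ρ hρ h3 h1 h2) fun ρ h1 h2 => by
      have e1 : a * x ^ p = c * z ^ r - b * y ^ q := by linear_combination h.eqn
      rw [e1]
      exact h2.sub h1

/-- A prime, one of two given ones, with a power which is a large part of `ℓ ^ e * x ^ p * α`. -/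
theorem pick {ℓ π e p x α : ℕ} (hℓ : ℓ.Prime) (hπ : π.Prime) (hd : π ∣ x) (hx : 0 < x)
    (hp : 0 < p) (hα : 0 < α) {Y : ℝ} (hY : (x : ℝ) ≤ Y) (hℓY : (ℓ : ℝ) ≤ Y) (hαY : (α : ℝ) ≤ Y) :
    ∃ π' k : ℕ, π'.Prime ∧ π' ≤ π + ℓ ∧ π' ^ k ∣ ℓ ^ e * x ^ p * α ∧
      Real.log (ℓ ^ e * x ^ p * α : ℕ) ≤ 2 * (k * Real.log (Y ^ 2)) := by
  have hℓ0 : (0 : ℝ) < ℓ := by exact_mod_cast hℓ.pos
  have hx0 : (0 : ℝ) < x := by exact_mod_cast hx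
  have hα0 : (0 : ℝ) < α := by exact_mod_cast hα
  have h1 : Real.log (ℓ ^ e * x ^ p * α : ℕ) = e * Real.log ℓ + p * Real.log x + Real.log α := by
    push_cast
    rw [Real.log_mul (by positivity) (by positivity), Real.log_mul (by positivity) (by positivity),
      Real.log_pow, Real.log_pow]
  have h2 : Real.log x ≤ Real.log Y := Real.log_le_log hx0 hY
  have h3 : Real.log ℓ ≤ Real.log Y := Real.log_le_log hℓ0 hℓY
  have h4 : Real.log α ≤ Real.log Y := Real.log_le_log hα0 hαY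
  have h5 : Real.log (Y ^ 2) = 2 * Real.log Y := by
    rw [Real.log_pow]
    norm_num
  have hY0 : 0 ≤ Real.log Y := (Real.log_natCast_nonneg ℓ).trans h3
  rw [h5]
  rcases le_total ((e : ℝ) * Real.log ℓ) (p * Real.log x) with h | h
  · refine ⟨π, p, hπ, by omega, Dvd.dvd.mul_right (Dvd.dvd.mul_left (pow_dvd_pow_of_dvd hd p) _) _,
      ?_⟩
    rw [h1]
    have h6 := mul_le_mul_of_nonneg_left h2 (Nat.cast_nonneg (α := ℝ) p)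
    have h7 : (1 : ℝ) * Real.log Y ≤ p * Real.log Y :=
      mul_le_mul_of_nonneg_right (by exact_mod_cast hp) hY0
    linarith
  · refine ⟨ℓ, e, hℓ, by omega, Dvd.dvd.mul_right (Dvd.intro _ rfl) _, ?_⟩
    rw [h1]
    have h6 := mul_le_mul_of_nonneg_left h3 (Nat.cast_nonneg (α := ℝ) e)
    have he : 0 < e := by
      rcases Nat.eq_zero_or_pos e with h0 | h0
      · exfalso
        rw [h0] at h
        have h8 : 2 ≤ x := hπ.two_le.trans (Nat.le_of_dvd hx hd)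
        have h9 : 0 < Real.log x := Real.log_pos (by exact_mod_cast h8)
        have h10 : (0 : ℝ) < p * Real.log x := mul_pos (by exact_mod_cast hp) h9
        push_cast at h
        linarith
      · exact h0
    have h7 : (1 : ℝ) * Real.log Y ≤ e * Real.log Y :=
      mul_le_mul_of_nonneg_right (by exact_mod_cast he) hY0
    linarith

theorem nb_three {ℓ e p x α : ℕ} (hℓ : 0 < ℓ) (hx : 0 < x) (hα : 0 < α) {Y : ℝ}
    (hY : (x : ℝ) ≤ Y) (hℓY : (ℓ : ℝ) ≤ Y) (hαY : (α : ℝ) ≤ Y) :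
    Pool.Agent.Y913.Nb.NB 3 Y (ℓ ^ e * x ^ p * α) := by
  refine ⟨![ℓ, x, α], ![e, p, 1], ?_, ?_⟩
  · intro i
    fin_cases i
    · exact ⟨hℓ, hℓY⟩
    · exact ⟨hx, hY⟩
    · exact ⟨hα, hαY⟩
  · rw [Fin.prod_univ_three]
    simp

theorem sum3_natAbs {a b c : ℤ} (h : a + b = c) :
    Sum3 a.natAbs b.natAbs c.natAbs := by
  unfold Sum3
  omega

/-- The terms are at most a quasi-polynomial function of the bases, if one of the bases has a small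
prime factor. -/
theorem terms_bound : ∃ C : ℝ, ∃ κ : ℕ, 0 < C ∧ ∀ (ℓ : ℕ), ℓ.Prime → ∀ Y : ℝ, (ℓ : ℝ) ≤ Y →
    ∀ (a b c x y z : ℤ) (p q r : ℕ), Sol a b c x y z p q r →
    Coef ℓ Y a → Coef ℓ Y b → Coef ℓ Y c →
    ∀ (x' y' z' : ℤ) (t1 t2 t3 : ℕ), x = (ℓ : ℤ) ^ t1 * x' → y = (ℓ : ℤ) ^ t2 * y' →
      z = (ℓ : ℤ) ^ t3 * z' → |(x' : ℝ)| ≤ Y → |(y' : ℝ)| ≤ Y → |(z' : ℝ)| ≤ Y →
    ∀ π : ℕ, π.Prime → π ≠ ℓ → (π : ℤ) ∣ x * y * z →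
      (Real.log (a * x ^ p).natAbs ≤ C * (π + ℓ + (1 + Real.log (Y ^ 2))) ^ κ) ∧
      (Real.log (b * y ^ q).natAbs ≤ C * (π + ℓ + (1 + Real.log (Y ^ 2))) ^ κ) ∧
      (Real.log (c * z ^ r).natAbs ≤ C * (π + ℓ + (1 + Real.log (Y ^ 2))) ^ κ) := by
  obtain ⟨C, κ, hC, H⟩ := height3 3
  refine ⟨C, κ, hC, ?_⟩
  intro ℓ hℓ Y hℓY a b c x y z p q r h ka kb kc x' y' z' t1 t2 t3 hxx hyy hzz hxY hyY hzY π hπ hπℓ
    hdvd
  obtain ⟨α, β, γ, i1, i2, i3, a1, b1, c1, -, -, -, a3, b3, c3, a4, b4, c4⟩ := parts hℓ h ka kb kc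
  obtain ⟨hp, hq, hr⟩ := h.pos
  have hℓ0 : 0 < ℓ := hℓ.pos
  have hY1 : 1 ≤ Y := by
    have : (1 : ℝ) ≤ ℓ := by exact_mod_cast hℓ.one_lt.le
    linarith
  have hYY : Y ≤ Y ^ 2 := by nlinarith
  have hY2 : 1 ≤ Y ^ 2 := hY1.trans hYY
  have hlY : 0 ≤ Real.log (Y ^ 2) := Real.log_nonneg hY2
  -- the absolute values of the terms
  have form : ∀ (a x x' ε : ℤ) (i t p : ℕ), a = ε * (ℓ : ℤ) ^ i →
      x = (ℓ : ℤ) ^ t * x' → (a * x ^ p).natAbs = ℓ ^ (i + t * p) * x'.natAbs ^ p * ε.natAbs := by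
    intro a x x' ε i t p ha hx
    have e1 : a * x ^ p = (ℓ : ℤ) ^ (i + t * p) * x' ^ p * ε := by
      rw [ha, hx, mul_pow, pow_add, pow_mul]
      ring
    rw [e1, Int.natAbs_mul, Int.natAbs_mul, Int.natAbs_pow, Int.natAbs_pow,
      Int.natAbs_natCast]
  have f1 := form a x x' α i1 t1 p a4 hxx
  have f2 := form b y y' β i2 t2 q b4 hyy
  have f3 := form c z z' γ i3 t3 r c4 hzz
  have pos' : ∀ (x x' : ℤ) (t : ℕ), x ≠ 0 → x = (ℓ : ℤ) ^ t * x' → 0 < x'.natAbs := by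
    intro x x' t hx hxx
    refine Int.natAbs_pos.2 fun h0 => hx ?_
    rw [hxx, h0, mul_zero]
  have px := pos' x x' t1 h.nz'.1 hxx
  have py := pos' y y' t2 h.nz'.2.1 hyy
  have pz := pos' z z' t3 h.nz'.2.2 hzz
  have pα := Int.natAbs_pos.2 a1
  have pβ := Int.natAbs_pos.2 b1
  have pγ := Int.natAbs_pos.2 c1
  have bd : ∀ x' : ℤ, |(x' : ℝ)| ≤ Y → ((x'.natAbs : ℕ) : ℝ) ≤ Y := by
    intro x' hx
    rw [Nat.cast_natAbs]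
    push_cast
    exact hx
  have bx := bd x' hxY
  have by' := bd y' hyY
  have bz := bd z' hzY
  have bα := bd α a3
  have bβ := bd β b3
  have bγ := bd γ c3
  have q1 : 0 < (a * x ^ p).natAbs := by rw [f1]; positivity
  have q2 : 0 < (b * y ^ q).natAbs := by rw [f2]; positivity
  have q3 : 0 < (c * z ^ r).natAbs := by rw [f3]; positivity
  have n1 : Pool.Agent.Y913.Nb.NB 3 (Y ^ 2) (a * x ^ p).natAbs := by
    rw [f1]; exact nb_three hℓ0 px pα (bx.trans hYY) (hℓY.trans hYY) (bα.trans hYY)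
  have n2 : Pool.Agent.Y913.Nb.NB 3 (Y ^ 2) (b * y ^ q).natAbs := by
    rw [f2]; exact nb_three hℓ0 py pβ (by'.trans hYY) (hℓY.trans hYY) (bβ.trans hYY)
  have n3 : Pool.Agent.Y913.Nb.NB 3 (Y ^ 2) (c * z ^ r).natAbs := by
    rw [f3]; exact nb_three hℓ0 pz pγ (bz.trans hYY) (hℓY.trans hYY) (bγ.trans hYY)
  obtain ⟨c12, c13, c23⟩ := cops h
  have s3 := sum3_natAbs h.eqn
  obtain ⟨Bd, hBd⟩ : ∃ Bd : ℝ, Bd = C * (π + ℓ + (1 + Real.log (Y ^ 2))) ^ κ := ⟨_, rfl⟩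
  rw [← hBd]
  -- the maximum
  have main : ∀ M : ℕ, (a * x ^ p).natAbs ≤ M → (b * y ^ q).natAbs ≤ M → (c * z ^ r).natAbs ≤ M →
      Real.log M ≤ Bd → Real.log (a * x ^ p).natAbs ≤ Bd ∧ Real.log (b * y ^ q).natAbs ≤ Bd ∧
        Real.log (c * z ^ r).natAbs ≤ Bd := by
    intro M h1 h2 h3 h4
    refine ⟨?_, ?_, ?_⟩
    · exact (Real.log_le_log (by exact_mod_cast q1) (by exact_mod_cast h1)).trans h4
    · exact (Real.log_le_log (by exact_mod_cast q2) (by exact_mod_cast h2)).trans h4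
    · exact (Real.log_le_log (by exact_mod_cast q3) (by exact_mod_cast h3)).trans h4
  have wrap : ∀ π' : ℕ, π' ≤ π + ℓ → C * ((π' : ℝ) + (1 + Real.log (Y ^ 2))) ^ κ ≤ Bd := by
    intro π' hπ'
    rw [hBd]
    have h1 : (π' : ℝ) ≤ π + ℓ := by exact_mod_cast hπ'
    refine mul_le_mul_of_nonneg_left (pow_le_pow_left₀ ?_ (by linarith) κ) hC.le
    have : (0 : ℝ) ≤ π' := Nat.cast_nonneg _
    linarith
  have hπi : Prime (π : ℤ) := Nat.prime_iff_prime_int.1 hπ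
  have down : ∀ (x x' : ℤ) (t : ℕ), x = (ℓ : ℤ) ^ t * x' → (π : ℤ) ∣ x → π ∣ x'.natAbs := by
    intro x x' t hx hd
    rw [hx] at hd
    rcases hπi.dvd_or_dvd hd with h1 | h1
    · exfalso
      have h2 : π ∣ ℓ := by exact_mod_cast hπi.dvd_of_dvd_pow h1
      exact hπℓ ((Nat.prime_dvd_prime_iff_eq hπ hℓ).1 h2)
    · exact Int.natCast_dvd.1 h1
  rcases hπi.dvd_or_dvd hdvd with h1 | h1
  · rcases hπi.dvd_or_dvd h1 with h2 | h2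
    · obtain ⟨π', k, g1, g2, g3, g4⟩ := pick (e := i1 + t1 * p) (p := p) hℓ hπ
        (down x x' t1 hxx h2) px hp pα bx hℓY bα
      rw [← f1] at g3 g4
      have := H (Y ^ 2) hY2 _ _ _ q2 q3 q1 c23 n2 n3 n1 (by
        unfold Sum3 at s3 ⊢
        omega) π' k g1 g3 g4
      exact main _ (by omega) (by omega) (by omega) (this.trans (wrap π' g2))
    · obtain ⟨π', k, g1, g2, g3, g4⟩ := pick (e := i2 + t2 * q) (p := q) hℓ hπ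
        (down y y' t2 hyy h2) py hq pβ by' hℓY bβ
      rw [← f2] at g3 g4
      have := H (Y ^ 2) hY2 _ _ _ q1 q3 q2 c13 n1 n3 n2 (by
        unfold Sum3 at s3 ⊢
        omega) π' k g1 g3 g4
      exact main _ (by omega) (by omega) (by omega) (this.trans (wrap π' g2))
  · obtain ⟨π', k, g1, g2, g3, g4⟩ := pick (e := i3 + t3 * r) (p := r) hℓ hπ
      (down z z' t3 hzz h1) pz hr pγ bz hℓY bγ
    rw [← f3] at g3 g4
    have := H (Y ^ 2) hY2 _ _ _ q1 q2 q3 c12 n1 n2 n3 s3 π' k g1 g3 g4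
    exact main _ (by omega) (by omega) (by omega) (this.trans (wrap π' g2))

theorem near_abs {ℓ N L s : ℕ} (hℓ : 2 ≤ ℓ) (hN : 1 ≤ N) {V : ℝ} (hV : V ≤ (ℓ : ℝ) ^ N)
    {ε x : ℤ} (hε : ε = 1 ∨ ε = -1) (h : Near ℓ N L s V ε x) :
    |(x : ℝ)| ≤ (ℓ : ℝ) ^ ((L + 2) * N) := by
  obtain ⟨I, u, -, h2, h3, rfl⟩ := h
  have e1 : |ε| = 1 := by rcases hε with rfl | rfl <;> rfl
  have h4 : |ε + ∑ i ∈ I, u i * (ℓ : ℤ) ^ i| ≤ 1 + (∑ i ∈ I, |u i|) * (ℓ : ℤ) ^ (L * N) := by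
    refine (abs_add_le _ _).trans ?_
    rw [e1, Finset.sum_mul]
    refine add_le_add le_rfl ((Finset.abs_sum_le_sum_abs _ _).trans ?_)
    refine Finset.sum_le_sum fun i hi => ?_
    rw [abs_mul, abs_pow, Nat.abs_cast]
    refine mul_le_mul_of_nonneg_left ?_ (abs_nonneg _)
    exact pow_le_pow_right₀ (by exact_mod_cast (by omega : 1 ≤ ℓ)) (h2 i hi).2
  have h5 : |((ε + ∑ i ∈ I, u i * (ℓ : ℤ) ^ i : ℤ) : ℝ)| ≤
      1 + ((∑ i ∈ I, |u i| : ℤ) : ℝ) * (ℓ : ℝ) ^ (L * N) := by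
    have h6 : ((|ε + ∑ i ∈ I, u i * (ℓ : ℤ) ^ i| : ℤ) : ℝ) ≤
        ((1 + (∑ i ∈ I, |u i|) * (ℓ : ℤ) ^ (L * N) : ℤ) : ℝ) := by exact_mod_cast h4
    rw [Int.cast_abs] at h6
    refine h6.trans (le_of_eq ?_)
    push_cast
    ring
  refine h5.trans ?_
  have hℓ' : (2 : ℝ) ≤ ℓ := by exact_mod_cast hℓ
  have h7 : (0 : ℝ) < (ℓ : ℝ) ^ (L * N) := by positivity
  have h8 : (1 : ℝ) ≤ (ℓ : ℝ) ^ (L * N) := one_le_pow₀ (by linarith)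
  have h9 : (2 : ℝ) ≤ (ℓ : ℝ) ^ N := by
    calc (2 : ℝ) ≤ ℓ := hℓ'
      _ = (ℓ : ℝ) ^ 1 := (pow_one _).symm
      _ ≤ (ℓ : ℝ) ^ N := pow_le_pow_right₀ (by linarith) hN
  have h10 : (ℓ : ℝ) ^ ((L + 2) * N) = (ℓ : ℝ) ^ N * ((ℓ : ℝ) ^ N * (ℓ : ℝ) ^ (L * N)) := by
    rw [← pow_add, ← pow_add]
    congr 1
    ring
  rw [h10]
  have h11 : ((∑ i ∈ I, |u i| : ℤ) : ℝ) * (ℓ : ℝ) ^ (L * N) ≤ (ℓ : ℝ) ^ N * (ℓ : ℝ) ^ (L * N) :=
    mul_le_mul_of_nonneg_right (h3.trans hV) h7.le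
  have h12 : (1 : ℝ) ≤ (ℓ : ℝ) ^ N * (ℓ : ℝ) ^ (L * N) := by nlinarith
  nlinarith

theorem growth {ρ : ℝ} (hρ : 1 < ρ) (A : ℝ) (k : ℕ) :
    ∃ N0 : ℕ, ∀ N : ℕ, N0 ≤ N → A * ((N : ℝ) + 1) ^ k ≤ ρ ^ N := by
  have h1 := tendsto_pow_const_div_const_pow_of_one_lt k hρ
  have h2 := (Filter.tendsto_add_atTop_iff_nat 1).2 h1
  have hc : (0 : ℝ) < 1 / ((|A| + 1) * ρ) := by positivity
  have h3 := h2.eventually (gt_mem_nhds hc)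
  obtain ⟨N0, hN0⟩ := Filter.eventually_atTop.1 h3
  refine ⟨N0, fun N hN => ?_⟩
  have h4 := hN0 N hN
  have hρ0 : 0 < ρ := by linarith
  rw [div_lt_div_iff₀ (by positivity) (by positivity), one_mul] at h4
  push_cast at h4
  have h5 : (0 : ℝ) ≤ ((N : ℝ) + 1) ^ k := by positivity
  have h6 : A * ((N : ℝ) + 1) ^ k ≤ (|A| + 1) * ((N : ℝ) + 1) ^ k :=
    mul_le_mul_of_nonneg_right (by linarith [le_abs_self A]) h5
  have h7 : ((|A| + 1) * ((N : ℝ) + 1) ^ k) * ρ < ρ ^ N * ρ := by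
    rw [← pow_succ]
    linarith
  have h8 := lt_of_mul_lt_mul_right h7 hρ0.le
  linarith

theorem growth2 {K : ℝ} (hK : 0 < K) (A : ℝ) (k : ℕ) :
    ∃ N0 : ℕ, ∀ N : ℕ, N0 ≤ N → ∀ ℓ : ℝ, 2 ≤ ℓ → A * (ℓ * ((N : ℝ) + 1)) ^ k ≤ ℓ ^ ((N : ℝ) / K) := by
  have hρ : (1 : ℝ) < 2 ^ (1 / (2 * K)) := Real.one_lt_rpow (by norm_num) (by positivity)
  obtain ⟨N1, hN1⟩ := growth hρ A k
  obtain ⟨N2, hN2⟩ := exists_nat_ge (2 * K * k)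
  refine ⟨max N1 N2, fun N hN ℓ hℓ => ?_⟩
  have h1 := hN1 N (le_trans (le_max_left _ _) hN)
  have h2 : 2 * K * k ≤ N := hN2.trans (by exact_mod_cast le_trans (le_max_right _ _) hN)
  have hℓ0 : 0 < ℓ := by linarith
  have h3 : ((2 : ℝ) ^ (1 / (2 * K))) ^ N = 2 ^ ((N : ℝ) / (2 * K)) := by
    rw [← Real.rpow_natCast, ← Real.rpow_mul (by norm_num)]
    congr 1
    ring
  rw [h3] at h1
  have h4 : (2 : ℝ) ^ ((N : ℝ) / (2 * K)) ≤ ℓ ^ ((N : ℝ) / (2 * K)) :=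
    Real.rpow_le_rpow (by norm_num) hℓ (by positivity)
  have h5 : ℓ ^ k ≤ ℓ ^ ((N : ℝ) / (2 * K)) := by
    rw [← Real.rpow_natCast]
    apply Real.rpow_le_rpow_of_exponent_le (by linarith)
    rw [le_div_iff₀ (by positivity)]
    linarith
  have h6 : ℓ ^ ((N : ℝ) / K) = ℓ ^ ((N : ℝ) / (2 * K)) * ℓ ^ ((N : ℝ) / (2 * K)) := by
    rw [← Real.rpow_add hℓ0]
    congr 1
    field_simp
    ring
  rw [h6, mul_pow]
  calc A * (ℓ ^ k * ((N : ℝ) + 1) ^ k) = (A * ((N : ℝ) + 1) ^ k) * ℓ ^ k := by ring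
    _ ≤ ℓ ^ ((N : ℝ) / (2 * K)) * ℓ ^ ((N : ℝ) / (2 * K)) := by
        apply mul_le_mul (h1.trans h4) h5 (by positivity) (by positivity)

/-- The uniform bound for the terms: `Y = C₀ ℓ ^ ((L + 2) N)` and `π ≤ (ℓ (N + 1)) ^ B`. -/
theorem terms_bound2 (L B : ℕ) (C₀ : ℝ) (hC₀ : 1 ≤ C₀) : ∃ A : ℝ, ∃ k : ℕ, 0 ≤ A ∧
    ∀ (ℓ N : ℕ), ℓ.Prime → 1 ≤ N → ∀ V : ℝ, V ≤ (ℓ : ℝ) ^ N →
    ∀ (a b c x y z : ℤ) (p q r : ℕ), Sol a b c x y z p q r →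
    Coef ℓ (max C₀ V) a → Coef ℓ (max C₀ V) b → Coef ℓ (max C₀ V) c →
    ∀ (x' y' z' : ℤ) (t1 t2 t3 : ℕ), x = (ℓ : ℤ) ^ t1 * x' → y = (ℓ : ℤ) ^ t2 * y' →
      z = (ℓ : ℤ) ^ t3 * z' → |(x' : ℝ)| ≤ (ℓ : ℝ) ^ ((L + 2) * N) →
      |(y' : ℝ)| ≤ (ℓ : ℝ) ^ ((L + 2) * N) → |(z' : ℝ)| ≤ (ℓ : ℝ) ^ ((L + 2) * N) →
    ∀ π : ℕ, π.Prime → π ≠ ℓ → π ≤ (ℓ * (N + 1)) ^ B → (π : ℤ) ∣ x * y * z →
      (Real.log (a * x ^ p).natAbs ≤ A * (ℓ * ((N : ℝ) + 1)) ^ k) ∧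
      (Real.log (b * y ^ q).natAbs ≤ A * (ℓ * ((N : ℝ) + 1)) ^ k) ∧
      (Real.log (c * z ^ r).natAbs ≤ A * (ℓ * ((N : ℝ) + 1)) ^ k) := by
  obtain ⟨C, κ, hC, H⟩ := terms_bound
  have hlC : 0 ≤ Real.log C₀ := Real.log_nonneg hC₀
  refine ⟨C * (2 * L + 2 * Real.log C₀ + 10) ^ κ, (B + 1) * κ, by positivity, ?_⟩
  intro ℓ N hℓ hN V hV a b c x y z p q r h ka kb kc x' y' z' t1 t2 t3 hxx hyy hzz hxY hyY hzY
    π hπ hπℓ hπB hdvd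
  have hℓ2 : (2 : ℝ) ≤ ℓ := by exact_mod_cast hℓ.two_le
  have hN1 : (1 : ℝ) ≤ N := by exact_mod_cast hN
  have hpow1 : (1 : ℝ) ≤ (ℓ : ℝ) ^ ((L + 2) * N) := one_le_pow₀ (by linarith)
  have hYY : (ℓ : ℝ) ^ ((L + 2) * N) ≤ C₀ * (ℓ : ℝ) ^ ((L + 2) * N) := by nlinarith
  have hY : (ℓ : ℝ) ≤ C₀ * (ℓ : ℝ) ^ ((L + 2) * N) := by
    refine le_trans ?_ hYY
    calc (ℓ : ℝ) = (ℓ : ℝ) ^ 1 := (pow_one _).symm
      _ ≤ (ℓ : ℝ) ^ ((L + 2) * N) :=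
        pow_le_pow_right₀ (by linarith) (Nat.mul_pos (by omega) hN)
  have hcoef : max C₀ V ≤ C₀ * (ℓ : ℝ) ^ ((L + 2) * N) := by
    apply max_le
    · nlinarith
    · refine hV.trans (le_trans ?_ hYY)
      exact pow_le_pow_right₀ (by linarith) (by nlinarith)
  have up : ∀ a : ℤ, Coef ℓ (max C₀ V) a → Coef ℓ (C₀ * (ℓ : ℝ) ^ ((L + 2) * N)) a := by
    rintro a ⟨i, α, h1, h2⟩
    exact ⟨i, α, h1, h2.trans hcoef⟩
  have h1 := H ℓ hℓ _ hY a b c x y z p q r h (up a ka) (up b kb) (up c kc) x' y' z' t1 t2 t3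
    hxx hyy hzz (hxY.trans hYY) (hyY.trans hYY) (hzY.trans hYY) π hπ hπℓ hdvd
  have hlog : Real.log ((C₀ * (ℓ : ℝ) ^ ((L + 2) * N)) ^ 2) =
      2 * (Real.log C₀ + ((L + 2) * N) * Real.log ℓ) := by
    rw [Real.log_pow, Real.log_mul (by linarith) (by linarith), Real.log_pow]
    push_cast
    ring
  have hlℓ : 0 ≤ Real.log ℓ := Real.log_nonneg (by linarith)
  rw [hlog] at h1
  have h2 : (π : ℝ) + ℓ + (1 + 2 * (Real.log C₀ + ((L + 2) * N) * Real.log ℓ)) ≤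
      (2 * L + 2 * Real.log C₀ + 10) * (ℓ * ((N : ℝ) + 1)) ^ (B + 1) := by
    have h3 : Real.log ℓ ≤ ℓ := (Real.log_le_sub_one_of_pos (by linarith)).trans (by linarith)
    have h4 : (1 : ℝ) ≤ ℓ * ((N : ℝ) + 1) := by nlinarith
    have h5 : (π : ℝ) ≤ (ℓ * ((N : ℝ) + 1)) ^ B := by exact_mod_cast hπB
    have h6 : (ℓ * ((N : ℝ) + 1)) ^ B ≤ (ℓ * ((N : ℝ) + 1)) ^ (B + 1) :=
      pow_le_pow_right₀ h4 (by omega)
    have h7 : ℓ * ((N : ℝ) + 1) ≤ (ℓ * ((N : ℝ) + 1)) ^ (B + 1) := by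
      calc ℓ * ((N : ℝ) + 1) = (ℓ * ((N : ℝ) + 1)) ^ 1 := (pow_one _).symm
        _ ≤ _ := pow_le_pow_right₀ h4 (by omega)
    have h8 : (N : ℝ) * Real.log ℓ ≤ ℓ * ((N : ℝ) + 1) := by nlinarith
    have h9 : ((L : ℝ) + 2) * N * Real.log ℓ ≤ (L + 2) * (ℓ * ((N : ℝ) + 1)) ^ (B + 1) := by
      rw [mul_assoc]
      exact mul_le_mul_of_nonneg_left (h8.trans h7) (by positivity)
    have h10 : (ℓ : ℝ) ≤ ℓ * ((N : ℝ) + 1) := by nlinarith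
    have h11 : Real.log C₀ * 1 ≤ Real.log C₀ * (ℓ * ((N : ℝ) + 1)) ^ (B + 1) :=
      mul_le_mul_of_nonneg_left (h4.trans h7) hlC
    linarith
  have hpos : 0 ≤ (π : ℝ) + ℓ + (1 + 2 * (Real.log C₀ + ((L + 2) * N) * Real.log ℓ)) := by
    have h3 : (0 : ℝ) ≤ π := Nat.cast_nonneg _
    positivity
  have h3 : C * ((π : ℝ) + ℓ + (1 + 2 * (Real.log C₀ + ((L + 2) * N) * Real.log ℓ))) ^ κ ≤
      C * (2 * L + 2 * Real.log C₀ + 10) ^ κ * (ℓ * ((N : ℝ) + 1)) ^ ((B + 1) * κ) := by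
    rw [pow_mul (ℓ * ((N : ℝ) + 1)) (B + 1) κ, mul_assoc C, ← mul_pow]
    exact mul_le_mul_of_nonneg_left (pow_le_pow_left₀ hpos h2 κ) hC.le
  exact ⟨h1.1.trans h3, h1.2.1.trans h3, h1.2.2.trans h3⟩

theorem pow_K {ℓ N L s : ℕ} (hL : 1 ≤ L) (hℓ : 2 ≤ ℓ) :
    (ℓ : ℝ) ^ ((N : ℝ) / (200 * L) ^ (3 * s + 2)) ≤ (ℓ : ℝ) ^ N := by
  rw [← Real.rpow_natCast (ℓ : ℝ) N]
  have hℓ' : (2 : ℝ) ≤ ℓ := by exact_mod_cast hℓ
  have hL' : (1 : ℝ) ≤ L := by exact_mod_cast hL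
  apply Real.rpow_le_rpow_of_exponent_le (by linarith)
  exact div_le_self (Nat.cast_nonneg N) (one_le_pow₀ (by linarith))

/-- If the coefficients are odd, `2` divides one of the bases. -/
theorem two_dvd {a b c x y z : ℤ} {p q r : ℕ} (h2 : ¬ (2 : ℤ) ∣ a * b * c)
    (h : Sol a b c x y z p q r) : ((2 : ℕ) : ℤ) ∣ x * y * z := by
  by_contra hcon
  have h3 : Odd (x * y * z) := by
    rw [← Int.not_even_iff_odd, even_iff_two_dvd]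
    exact_mod_cast hcon
  have h4 := Int.odd_mul.1 h3
  have h5 := Int.odd_mul.1 h4.1
  have h6 : Odd (a * b * c) := by
    rw [← Int.not_even_iff_odd, even_iff_two_dvd]
    exact h2
  have h7 := Int.odd_mul.1 h6
  have h8 := Int.odd_mul.1 h7.1
  have o1 : Odd (a * x ^ p) := h8.1.mul h5.1.pow
  have o2 : Odd (b * y ^ q) := h8.2.mul h5.2.pow
  have o3 : Odd (c * z ^ r) := h7.2.mul h4.2.pow
  rw [← h.eqn] at o3
  exact (Int.not_even_iff_odd.2 o3) (o1.add_odd o2)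

theorem not_dvd_powers {ℓ π : ℕ} (hℓ : ℓ.Prime) (hπ : π.Prime) (hne : π ≠ ℓ) {x y z : ℤ}
    (hd : (π : ℤ) ∣ x * y * z) (hx : IsPower ℓ x) (hy : IsPower ℓ y) (hz : IsPower ℓ z) :
    False := by
  have hπi : Prime (π : ℤ) := Nat.prime_iff_prime_int.1 hπ
  have key : ∀ w : ℤ, IsPower ℓ w → ¬ (π : ℤ) ∣ w := by
    rintro w ⟨t, ht⟩ hw
    have h1 : (π : ℤ) ∣ (ℓ : ℤ) ^ t := by
      rcases ht with rfl | rfl
      · exact hw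
      · exact (dvd_neg.1 hw)
    have h2 : π ∣ ℓ := by exact_mod_cast hπi.dvd_of_dvd_pow h1
    exact hne ((Nat.prime_dvd_prime_iff_eq hπ hℓ).1 h2)
  rcases hπi.dvd_or_dvd hd with h1 | h1
  · rcases hπi.dvd_or_dvd h1 with h2 | h2
    · exact key x hx h2
    · exact key y hy h2
  · exact key z hz h1

/-- No solutions with a small prime factor for large `N`. -/
theorem none_large (s L B : ℕ) (hL : 1 ≤ L) : ∃ N₀ : ℕ, ∀ (ℓ N : ℕ), ℓ.Prime → N₀ ≤ N → ∀ V : ℝ,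
    V = (ℓ : ℝ) ^ ((N : ℝ) / (200 * L) ^ (3 * s + 2)) →
    ∀ (a b c x y z : ℤ) (p q r : ℕ), Sol a b c x y z p q r →
    Coef ℓ V a → Coef ℓ V b → Coef ℓ V c →
    NearPower ℓ N L s V x → NearPower ℓ N L s V y → NearPower ℓ N L s V z →
    ∀ π : ℕ, π.Prime → π ≠ ℓ → π ≤ (ℓ * (N + 1)) ^ B → ¬ (π : ℤ) ∣ x * y * z := by
  obtain ⟨A, k, hA, H⟩ := terms_bound2 L B 1 le_rfl
  have hL' : (1 : ℝ) ≤ L := by exact_mod_cast hL
  have hK : (0 : ℝ) < (200 * L) ^ (3 * s + 2) := by positivity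
  obtain ⟨N1, hN1⟩ := growth2 hK (2 * A) k
  obtain ⟨N2, hN2⟩ := growth2 hK 7 0
  refine ⟨max 1 (max N1 N2), ?_⟩
  intro ℓ N hℓ hN V hV a b c x y z p q r h ka kb kc hx hy hz π hπ hπℓ hπB hdvd
  have hNpos : 1 ≤ N := by omega
  have hℓ2 : (2 : ℝ) ≤ ℓ := by exact_mod_cast hℓ.two_le
  have g1 : 2 * A * (ℓ * ((N : ℝ) + 1)) ^ k ≤ V := by
    rw [hV]
    exact hN1 N (by omega) ℓ hℓ2
  have g2 : 7 ≤ V := by
    have h1 := hN2 N (by omega) ℓ hℓ2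
    rw [pow_zero, mul_one, ← hV] at h1
    exact h1
  have hVN : V ≤ (ℓ : ℝ) ^ N := by
    rw [hV]
    exact pow_K hL hℓ.two_le
  have hmax : max 1 V = V := max_eq_right (by linarith)
  obtain ⟨t1, εx, x', hεx, hx', hxx⟩ := hx
  obtain ⟨t2, εy, y', hεy, hy', hyy⟩ := hy
  obtain ⟨t3, εz, z', hεz, hz', hzz⟩ := hz
  obtain ⟨l1, l2, l3⟩ := H ℓ N hℓ hNpos V hVN a b c x y z p q r h (by rwa [hmax]) (by rwa [hmax])
    (by rwa [hmax]) x' y' z' t1 t2 t3 hxx hyy hzz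
    (near_abs hℓ.two_le hNpos hVN hεx hx') (near_abs hℓ.two_le hNpos hVN hεy hy')
    (near_abs hℓ.two_le hNpos hVN hεz hz') π hπ hπℓ hπB hdvd
  obtain ⟨α, β, γ, i1, i2, i3, a1, b1, c1, a2, b2, c2, a3, b3, c3, a4, b4, c4⟩ :=
    parts hℓ h ka kb kc
  have bnd : ∀ (a x x' : ℤ) (t p : ℕ), a ≠ 0 → x ≠ 0 → x = (ℓ : ℤ) ^ t * x' →
      Real.log (a * x ^ p).natAbs ≤ A * (ℓ * ((N : ℝ) + 1)) ^ k → Bnd V x' p := by
    intro a x x' t p ha hx hxx hl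
    have hx' : x' ≠ 0 := fun h0 => hx (by rw [hxx, h0, mul_zero])
    by_cases h1 : x'.natAbs = 1
    · right
      exact ⟨g2, Int.natAbs_eq_iff.1 h1 |>.imp id id⟩
    · left
      have h2 : 2 ≤ x'.natAbs := by
        have := Int.natAbs_pos.2 hx'
        omega
      have h3 : 2 ^ p ≤ (a * x ^ p).natAbs := by
        rw [Int.natAbs_mul, Int.natAbs_pow, hxx, Int.natAbs_mul, Int.natAbs_pow,
          Int.natAbs_natCast, mul_pow]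
        have h4 : 1 ≤ a.natAbs := Int.natAbs_pos.2 ha
        have h5 : 1 ≤ (ℓ ^ t) ^ p := Nat.one_le_pow _ _ (pow_pos hℓ.pos t)
        have h6 : 2 ^ p ≤ x'.natAbs ^ p := Nat.pow_le_pow_left h2 p
        calc 2 ^ p = 1 * (1 * 2 ^ p) := by ring
          _ ≤ _ := Nat.mul_le_mul h4 (Nat.mul_le_mul h5 h6)
      have h4 : p * Real.log 2 ≤ Real.log (a * x ^ p).natAbs := by
        rw [← Real.log_pow]
        apply Real.log_le_log (by positivity)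
        exact_mod_cast h3
      have h5 : (1 : ℝ) / 2 ≤ Real.log 2 := by
        have := Real.log_two_gt_d9
        linarith
      have h6 : (0 : ℝ) ≤ p := Nat.cast_nonneg p
      nlinarith
  have hane : a ≠ 0 := fun h0 => h.nz (by rw [h0]; ring)
  have hbne : b ≠ 0 := fun h0 => h.nz (by rw [h0]; ring)
  have hcne : c ≠ 0 := fun h0 => h.nz (by rw [h0]; ring)
  obtain ⟨h1, h2, h3⟩ := core s L hL ℓ N hℓ hNpos V hV h a1 b1 c1 a2 b2 c2 a3 b3 c3 a4 b4 c4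
    hεx hεy hεz hx' hy' hz' hxx hyy hzz (bnd a x x' t1 p hane h.nz'.1 hxx l1)
    (bnd b y y' t2 q hbne h.nz'.2.1 hyy l2) (bnd c z z' t3 r hcne h.nz'.2.2 hzz l3)
  exact not_dvd_powers hℓ hπ hπℓ hdvd (isPower_of hεx (by rw [hxx, h1]))
    (isPower_of hεy (by rw [hyy, h2])) (isPower_of hεz (by rw [hzz, h3]))

/-- The terms of all solutions with a small prime factor form a finite set. -/
theorem finite_all (s L B : ℕ) (hL : 1 ≤ L) (C₀ : ℝ) (ℓ : ℕ) (hℓ : ℓ.Prime) :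
    {T : ℤ × ℤ × ℤ | ∃ (a b c x y z : ℤ) (p q r : ℕ), Sol a b c x y z p q r ∧
      T = (a * x ^ p, b * y ^ q, c * z ^ r) ∧ ∃ N : ℕ, 1 ≤ N ∧ ∃ V : ℝ,
        V = (ℓ : ℝ) ^ ((N : ℝ) / (200 * L) ^ (3 * s + 2)) ∧
        Coef ℓ (max C₀ V) a ∧ Coef ℓ (max C₀ V) b ∧ Coef ℓ (max C₀ V) c ∧
        NearPower ℓ N L s V x ∧ NearPower ℓ N L s V y ∧ NearPower ℓ N L s V z ∧
        ∃ π : ℕ, π.Prime ∧ π ≠ ℓ ∧ π ≤ (ℓ * (N + 1)) ^ B ∧ (π : ℤ) ∣ x * y * z}.Finite := by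
  obtain ⟨A, k, hA, H⟩ := terms_bound2 L B (max 1 C₀) (le_max_left _ _)
  obtain ⟨N0, hN0⟩ := none_large s L B hL
  have hL' : (1 : ℝ) ≤ L := by exact_mod_cast hL
  have hK : (0 : ℝ) < (200 * L) ^ (3 * s + 2) := by positivity
  obtain ⟨N1, hN1⟩ := growth2 hK C₀ 0
  have hℓ2 : (2 : ℝ) ≤ ℓ := by exact_mod_cast hℓ.two_le
  obtain ⟨M, hM⟩ := exists_nat_ge (Real.exp (A * (ℓ * (((max N0 N1 : ℕ) : ℝ) + 1)) ^ k))
  refine Set.Finite.subset (Set.finite_Icc ((-M, -M, -M) : ℤ × ℤ × ℤ) (M, M, M)) ?_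
  rintro T ⟨a, b, c, x, y, z, p, q, r, h, rfl, N, hN, V, hV, ka, kb, kc, hx, hy, hz, π, hπ, hπℓ,
    hπB, hdvd⟩
  have hlt : N < max N0 N1 := by
    by_contra hcon
    have h1 := hN1 N (by omega) ℓ hℓ2
    rw [pow_zero, mul_one, ← hV] at h1
    rw [max_eq_right h1] at ka kb kc
    exact hN0 ℓ N hℓ (by omega) V hV a b c x y z p q r h ka kb kc hx hy hz π hπ hπℓ hπB hdvd
  have hVN : V ≤ (ℓ : ℝ) ^ N := by
    rw [hV]
    exact pow_K hL hℓ.two_le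
  have up : ∀ a : ℤ, Coef ℓ (max C₀ V) a → Coef ℓ (max (max 1 C₀) V) a := by
    rintro a ⟨i, α, h1, h2⟩
    exact ⟨i, α, h1, h2.trans (max_le_max (le_max_right _ _) le_rfl)⟩
  obtain ⟨t1, εx, x', hεx, hx', hxx⟩ := hx
  obtain ⟨t2, εy, y', hεy, hy', hyy⟩ := hy
  obtain ⟨t3, εz, z', hεz, hz', hzz⟩ := hz
  obtain ⟨l1, l2, l3⟩ := H ℓ N hℓ hN V hVN a b c x y z p q r h (up a ka) (up b kb) (up c kc)
    x' y' z' t1 t2 t3 hxx hyy hzz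
    (near_abs hℓ.two_le hN hVN hεx hx') (near_abs hℓ.two_le hN hVN hεy hy')
    (near_abs hℓ.two_le hN hVN hεz hz') π hπ hπℓ hπB hdvd
  have mono : A * (ℓ * ((N : ℝ) + 1)) ^ k ≤ A * (ℓ * (((max N0 N1 : ℕ) : ℝ) + 1)) ^ k := by
    have h1 : (N : ℝ) ≤ (max N0 N1 : ℕ) := by exact_mod_cast hlt.le
    refine mul_le_mul_of_nonneg_left (pow_le_pow_left₀ (by positivity) ?_ k) hA
    exact mul_le_mul_of_nonneg_left (by linarith) (Nat.cast_nonneg ℓ)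
  have box : ∀ w : ℤ, w ≠ 0 → Real.log w.natAbs ≤ A * (ℓ * ((N : ℝ) + 1)) ^ k →
      -(M : ℤ) ≤ w ∧ w ≤ M := by
    intro w hw hl
    have h1 : (0 : ℝ) < w.natAbs := by exact_mod_cast Int.natAbs_pos.2 hw
    have h2 : (w.natAbs : ℝ) ≤ M := by
      rw [← Real.exp_log h1]
      exact (Real.exp_le_exp.2 (hl.trans mono)).trans hM
    have h3 : w.natAbs ≤ M := by exact_mod_cast h2
    omega
  have hane : a ≠ 0 := fun h0 => h.nz (by rw [h0]; ring)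
  have hbne : b ≠ 0 := fun h0 => h.nz (by rw [h0]; ring)
  have hcne : c ≠ 0 := fun h0 => h.nz (by rw [h0]; ring)
  obtain ⟨m1, m2⟩ := box _ (mul_ne_zero hane (pow_ne_zero p h.nz'.1)) l1
  obtain ⟨m3, m4⟩ := box _ (mul_ne_zero hbne (pow_ne_zero q h.nz'.2.1)) l2
  obtain ⟨m5, m6⟩ := box _ (mul_ne_zero hcne (pow_ne_zero r h.nz'.2.2)) l3
  rw [Set.mem_Icc]
  exact ⟨⟨m1, m3, m5⟩, ⟨m2, m4, m6⟩⟩

theorem two_le_pow {ℓ N : ℕ} (hℓ : 2 ≤ ℓ) (B : ℕ) : 2 ≤ (ℓ * (N + 1)) ^ (B + 1) := by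
  have h1 : 2 ≤ ℓ * (N + 1) := by nlinarith
  calc 2 ≤ (ℓ * (N + 1)) ^ 1 := by rw [pow_one]; exact h1
    _ ≤ (ℓ * (N + 1)) ^ (B + 1) := Nat.pow_le_pow_right (by omega) (by omega)

theorem le_pow_succ {ℓ N : ℕ} (hℓ : 1 ≤ ℓ) (hN : 1 ≤ N) (B : ℕ) :
    (ℓ * N) ^ B ≤ (ℓ * (N + 1)) ^ (B + 1) := by
  have h1 : 1 ≤ ℓ * (N + 1) := Nat.mul_pos hℓ (by omega)
  calc (ℓ * N) ^ B ≤ (ℓ * (N + 1)) ^ B := Nat.pow_le_pow_left (Nat.mul_le_mul_left _ (by omega)) B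
    _ ≤ (ℓ * (N + 1)) ^ (B + 1) := Nat.pow_le_pow_right h1 (by omega)

end Pool.Agent.K6.H50.SGF
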